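import Mathlib

open MeasureTheory ProbabilityTheory Filter Topology
open scoped NNReal ENNReal

namespace Pool.Agent.Lib.MP_d1eed2_pr

/-- One-dimensional limit of centred Gaussians. -/
lemma map_eq_gaussianReal_of_tendsto {Ω : Type*} {mΩ : MeasurableSpace Ω} {P : Measure Ω}
    [IsProbabilityMeasure P] {Y : ℕ → Ω → ℝ} {Z : Ω → ℝ} {v : ℕ → ℝ≥0} {w : ℝ≥0}
    (hY : ∀ n, P.map (Y n) = gaussianReal 0 (v n)) (hYm : ∀ n, AEMeasurable (Y n) P)
    (hZm : AEMeasurable Z P)
    (hlim : ∀ᵐ ω ∂P, Tendsto (fun n => Y n ω) atTop (𝓝 (Z ω)))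
    (hv : Tendsto v atTop (𝓝 w)) :
    P.map Z = gaussianReal 0 w := by
  have : IsProbabilityMeasure (P.map Z) := Measure.isProbabilityMeasure_map hZm
  apply Measure.ext_of_charFun
  ext t
  have h1 : Tendsto (fun n => charFun (P.map (Y n)) t) atTop (𝓝 (charFun (P.map Z) t)) := by
    simp only [charFun_apply_real]
    have e1 : ∀ n, ∫ x, Complex.exp (t * x * Complex.I) ∂(P.map (Y n))
        = ∫ ω, Complex.exp (t * (Y n ω) * Complex.I) ∂P := by
      intro n
      rw [integral_map (hYm n)]
      fun_prop
    have e2 : ∫ x, Complex.exp (t * x * Complex.I) ∂(P.map Z)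
        = ∫ ω, Complex.exp (t * (Z ω) * Complex.I) ∂P := by
      rw [integral_map hZm]
      fun_prop
    simp only [e1, e2]
    apply tendsto_integral_of_dominated_convergence (fun _ => (1 : ℝ))
    · intro n
      have := hYm n
      fun_prop
    · exact integrable_const _
    · intro n
      filter_upwards with ω
      have : (t * (Y n ω) * Complex.I : ℂ) = ((t * Y n ω : ℝ) : ℂ) * Complex.I := by push_cast; ring
      rw [this, Complex.norm_exp_ofReal_mul_I]
    · filter_upwards [hlim] with ω hω
      have hc : Continuous (fun x : ℝ => Complex.exp (t * x * Complex.I)) := by fun_prop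
      exact (hc.tendsto _).comp hω
  have h2 : Tendsto (fun n => charFun (P.map (Y n)) t) atTop (𝓝 (charFun (gaussianReal 0 w) t)) := by
    simp only [hY, charFun_gaussianReal]
    have hv' : Tendsto (fun n => ((v n : ℝ) : ℂ)) atTop (𝓝 ((w : ℝ) : ℂ)) := by
      exact (Complex.continuous_ofReal.tendsto _).comp ((NNReal.continuous_coe.tendsto _).comp hv)
    have hc : Continuous (fun x : ℂ => Complex.exp (t * (0:ℝ) * Complex.I - x * t ^ 2 / 2)) := by
      fun_prop
    exact (hc.tendsto _).comp hv'
  exact tendsto_nhds_unique h1 h2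

/-- Variance of a linear functional of a centred process with given covariances. -/
lemma variance_linear {T Ω : Type*} {mΩ : MeasurableSpace Ω} {P : Measure Ω}
    [IsProbabilityMeasure P] {X : T → Ω → ℝ} (I : Finset T) (c : I → ℝ)
    (hX : ∀ t, MemLp (X t) 2 P) (K : T → T → ℝ) (hK : ∀ s t, cov[X s, X t; P] = K s t) :
    Var[fun ω => ∑ i : I, c i * X i ω; P] = ∑ i : I, ∑ j : I, c i * c j * K i j := by
  rw [variance_fun_sum' (s := Finset.univ) (X := fun (i : I) ω => c i * X i ω)
    (fun (i : I) _ => (hX i).const_mul (c i))]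
  refine Finset.sum_congr rfl fun i _ => Finset.sum_congr rfl fun j _ => ?_
  rw [covariance_const_mul_left, covariance_const_mul_right, hK]
  ring

lemma isPreBrownianReal_of_tendsto {Ω : Type*} {mΩ : MeasurableSpace Ω} {P : Measure Ω}
    {X : ℕ → ℝ≥0 → Ω → ℝ} {W : ℝ≥0 → Ω → ℝ}
    (hX : ∀ n, IsGaussianProcess (X n) P) (hmean : ∀ n t, P[X n t] = 0)
    (hcov : ∀ s t, Tendsto (fun n => cov[X n s, X n t; P]) atTop (𝓝 ((min s t : ℝ≥0) : ℝ)))
    (hW : ∀ t, AEMeasurable (W t) P)
    (hlim : ∀ t, ∀ᵐ ω ∂P, Tendsto (fun n => X n t ω) atTop (𝓝 (W t ω))) :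
    IsPreBrownianReal W P where
  hasLaw I := by
    have : IsProbabilityMeasure P := (hX 0).isProbabilityMeasure
    have hWI : AEMeasurable (fun ω => I.restrict (W · ω)) P :=
      aemeasurable_pi_lambda _ fun i => hW i
    refine ⟨hWI, ?_⟩
    have : IsProbabilityMeasure (P.map (fun ω => I.restrict (W · ω))) :=
      Measure.isProbabilityMeasure_map hWI
    apply Measure.ext_of_charFunDual
    ext L
    rw [charFunDual_eq_charFun_map_one, charFunDual_eq_charFun_map_one]
    congr 1
    set c : I → ℝ := fun i => L (fun j => if i = j then 1 else 0) with hc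
    have hL : ∀ x : I → ℝ, L x = ∑ i, c i * x i := by
      intro x
      have := LinearMap.pi_apply_eq_sum_univ (L : (I → ℝ) →ₗ[ℝ] ℝ) x
      simp only [ContinuousLinearMap.coe_coe] at this
      rw [this]
      refine Finset.sum_congr rfl fun i _ => ?_
      simp [hc, mul_comm]
    set v : ℝ := ∑ i : I, ∑ j : I, c i * c j * ((min i.1 j.1 : ℝ≥0) : ℝ) with hv
    have h1 : (P.map (fun ω => I.restrict (W · ω))).map L = gaussianReal 0 v.toNNReal := by
      rw [AEMeasurable.map_map_of_aemeasurable (by fun_prop) hWI]
      have e : (L ∘ fun ω => I.restrict (W · ω)) = fun ω => ∑ i : I, c i * W i ω := by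
        ext ω; simp [hL]
      rw [e]
      refine map_eq_gaussianReal_of_tendsto
        (Y := fun n ω => ∑ i : I, c i * X n i ω)
        (v := fun n => (∑ i : I, ∑ j : I, c i * c j * cov[X n i, X n j; P]).toNNReal) ?_ ?_ ?_ ?_ ?_
      · intro n
        have hg : HasGaussianLaw (fun ω => ∑ i : I, c i * X n i ω) P := by
          have := ((hX n).hasGaussianLaw I).map_fun L
          simpa [hL] using this
        rw [hg.map_eq_gaussianReal]
        have hmL : ∀ t, MemLp (X n t) 2 P := fun t => ((hX n).hasGaussianLaw_eval t).memLp_two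
        rw [variance_linear I c hmL (fun s t => cov[X n s, X n t; P]) (fun _ _ => rfl)]
        congr 1
        rw [integral_finsetSum]
        · simp [integral_const_mul, hmean]
        · intro i _
          exact ((hX n).hasGaussianLaw_eval i).integrable.const_mul _
      · intro n
        have := fun t => (hX n).aemeasurable t
        fun_prop
      · fun_prop
      · have : ∀ᵐ ω ∂P, ∀ i : I, Tendsto (fun n => X n i ω) atTop (𝓝 (W i ω)) :=
          ae_all_iff.2 fun i => hlim i
        filter_upwards [this] with ω hω
        exact tendsto_finsetSum _ fun i _ => (hω i).const_mul _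
      · refine (continuous_real_toNNReal.tendsto _).comp ?_
        exact tendsto_finsetSum _ fun i _ => tendsto_finsetSum _ fun j _ =>
          (hcov i j).const_mul _
    have h2 : (BrownianReal.projectiveFamily I).map L = gaussianReal 0 v.toNNReal := by
      have hid : HasGaussianLaw (fun x : I → ℝ => x) (BrownianReal.projectiveFamily I) :=
        IsGaussian.hasGaussianLaw_id
      have hg : HasGaussianLaw (fun x : I → ℝ => L x) (BrownianReal.projectiveFamily I) :=
        hid.map_fun L
      have e : (fun x : I → ℝ => L x) = (L : (I → ℝ) → ℝ) := rfl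
      rw [← e, hg.map_eq_gaussianReal]
      have hvar : Var[fun x : I → ℝ => L x; BrownianReal.projectiveFamily I] = v := by
        have hm : ∀ t : I, MemLp (fun x : I → ℝ => x t) 2 (BrownianReal.projectiveFamily I) :=
          fun t => (hid.eval t).memLp_two
        simp only [hL]
        rw [variance_fun_sum' (fun i _ => (hm i).const_mul (c i))]
        refine Finset.sum_congr rfl fun i _ => Finset.sum_congr rfl fun j _ => ?_
        rw [covariance_const_mul_left, covariance_const_mul_right,
          BrownianReal.covariance_eval_projectiveFamily]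
        ring
      have hint : ∫ x : I → ℝ, L x ∂(BrownianReal.projectiveFamily I) = 0 := by
        have := ContinuousLinearMap.integral_comp_comm L
          (φ := fun x : I → ℝ => x) (μ := BrownianReal.projectiveFamily I) hid.integrable
        rw [this, BrownianReal.integral_id_projectiveFamily, map_zero]
      rw [hvar, hint]
    rw [h1, h2]

end Pool.Agent.Lib.MP_d1eed2_pr
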