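import Mathlib

open MeasureTheory ProbabilityTheory Filter Topology
open scoped NNReal ENNReal

namespace Pool.Agent.Lib.MP_d1eed2_pr

/-! ### Deterministic part: Schauder functions -/

/-- clamp to the unit interval -/
noncomputable def cl (x : ℝ) : ℝ := max 0 (min x 1)

/-- tent function -/
noncomputable def tent (x : ℝ) : ℝ := max 0 (min x (1 - x))

lemma cl_eq (x : ℝ) : cl x = (cl (2 * x) + cl (2 * x - 1)) / 2 := by
  simp only [cl, max_def, min_def]; split_ifs <;> linarith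

lemma tent_eq (x : ℝ) : tent x = (cl (2 * x) - cl (2 * x - 1)) / 2 := by
  simp only [cl, tent, max_def, min_def]; split_ifs <;> linarith

lemma cl_nonneg (x : ℝ) : 0 ≤ cl x := le_max_left _ _
lemma cl_le_one (x : ℝ) : cl x ≤ 1 := max_le zero_le_one (min_le_right _ _)
lemma cl_of_nonpos {x : ℝ} (h : x ≤ 0) : cl x = 0 := max_eq_left ((min_le_left _ _).trans h)
lemma cl_of_one_le {x : ℝ} (h : 1 ≤ x) : cl x = 1 := by
  simp [cl, min_eq_right h]
lemma cl_of_mem {x : ℝ} (h0 : 0 ≤ x) (h1 : x ≤ 1) : cl x = x := by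
  simp [cl, min_eq_left h1, h0]
lemma tent_nonneg (x : ℝ) : 0 ≤ tent x := le_max_left _ _
lemma tent_of_nonpos {x : ℝ} (h : x ≤ 0) : tent x = 0 := max_eq_left ((min_le_left _ _).trans h)
lemma tent_of_one_le {x : ℝ} (h : 1 ≤ x) : tent x = 0 :=
  max_eq_left ((min_le_right _ _).trans (by linarith))
lemma tent_le_one (x : ℝ) : tent x ≤ 1 := by
  simp only [tent, max_def, min_def]; split_ifs <;> linarith

lemma cl_mono : Monotone cl := fun x y h => by
  unfold cl; gcongr

lemma continuous_tent : Continuous tent := by unfold tent; fun_prop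
lemma continuous_cl : Continuous cl := by unfold cl; fun_prop

lemma sum_range_two_mul (n : ℕ) (f : ℕ → ℝ) :
    ∑ i ∈ Finset.range (2 * n), f i = ∑ i ∈ Finset.range n, (f (2 * i) + f (2 * i + 1)) := by
  induction n with
  | zero => simp
  | succ n ih =>
    rw [show 2 * (n + 1) = 2 * n + 1 + 1 by ring, Finset.sum_range_succ, Finset.sum_range_succ, ih,
      Finset.sum_range_succ]
    ring

/-- the dyadic approximation of `min u v` -/
noncomputable def SN (N : ℕ) (u v : ℝ) : ℝ :=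
  ∑ k ∈ Finset.range (2 ^ N), cl (2 ^ N * u - k) * cl (2 ^ N * v - k) / 2 ^ N

lemma SN_succ (N : ℕ) (u v : ℝ) :
    SN (N + 1) u v = SN N u v
      + ∑ k ∈ Finset.range (2 ^ N), tent (2 ^ N * u - k) * tent (2 ^ N * v - k) / 2 ^ N := by
  unfold SN
  rw [pow_succ', sum_range_two_mul, ← Finset.sum_add_distrib]
  refine Finset.sum_congr rfl fun k _ => ?_
  have h1 := cl_eq (2 ^ N * u - k)
  have h2 := cl_eq (2 ^ N * v - k)
  have h3 := tent_eq (2 ^ N * u - k)
  have h4 := tent_eq (2 ^ N * v - k)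
  have e1 : (2 : ℝ) ^ (N + 1) * u - ((2 * k : ℕ) : ℝ) = 2 * (2 ^ N * u - k) := by
    push_cast; ring
  have e2 : (2 : ℝ) ^ (N + 1) * u - ((2 * k + 1 : ℕ) : ℝ) = 2 * (2 ^ N * u - k) - 1 := by
    push_cast; ring
  have e3 : (2 : ℝ) ^ (N + 1) * v - ((2 * k : ℕ) : ℝ) = 2 * (2 ^ N * v - k) := by
    push_cast; ring
  have e4 : (2 : ℝ) ^ (N + 1) * v - ((2 * k + 1 : ℕ) : ℝ) = 2 * (2 ^ N * v - k) - 1 := by
    push_cast; ring
  rw [e1, e2, e3, e4, h1, h2, h3, h4]
  have hp : (2 : ℝ) ^ N ≠ 0 := by positivity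
  rw [pow_succ]
  field_simp
  ring

lemma SN_zero {u v : ℝ} (hu0 : 0 ≤ u) (hu1 : u ≤ 1) (hv0 : 0 ≤ v) (hv1 : v ≤ 1) :
    SN 0 u v = u * v := by
  simp [SN, cl_of_mem hu0 hu1, cl_of_mem hv0 hv1]

lemma sum_tent_eq (N : ℕ) (u v : ℝ) :
    ∑ n ∈ Finset.range N, ∑ k ∈ Finset.range (2 ^ n),
      tent (2 ^ n * u - k) * tent (2 ^ n * v - k) / 2 ^ n = SN N u v - SN 0 u v := by
  induction N with
  | zero => simp
  | succ N ih => rw [Finset.sum_range_succ, ih, SN_succ]; ring

lemma sum_cl (m : ℕ) (x : ℝ) (h0 : 0 ≤ x) (h1 : x ≤ m) :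
    ∑ k ∈ Finset.range m, cl (x - k) = x := by
  induction m generalizing x with
  | zero => simp at h1 ⊢; linarith
  | succ m ih =>
    rw [Finset.sum_range_succ']
    have e : ∀ k : ℕ, x - ((k + 1 : ℕ) : ℝ) = (x - 1) - k := by intro k; push_cast; ring
    simp only [e]
    rcases le_total x 1 with hx | hx
    · rw [Finset.sum_eq_zero]
      · simp [cl_of_mem h0 hx]
      · intro k _
        apply cl_of_nonpos
        have : (0 : ℝ) ≤ k := Nat.cast_nonneg k
        linarith
    · rw [ih (x - 1) (by linarith) (by push_cast at h1; linarith)]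
      simp [cl_of_one_le hx]

lemma sum_cl_sub_sq (m : ℕ) (x : ℝ) :
    ∑ k ∈ Finset.range m, (cl (x - k) - cl (x - k) ^ 2) ≤ 1 := by
  induction m generalizing x with
  | zero => simp
  | succ m ih =>
    rw [Finset.sum_range_succ']
    have e : ∀ k : ℕ, x - ((k + 1 : ℕ) : ℝ) = (x - 1) - k := by intro k; push_cast; ring
    simp only [e]
    rcases le_total x 1 with hx | hx
    · rw [Finset.sum_eq_zero]
      · have := cl_nonneg x
        have := cl_le_one x
        simp only [Nat.cast_zero, sub_zero, zero_add]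
        nlinarith
      · intro k _
        have : (0 : ℝ) ≤ k := Nat.cast_nonneg k
        rw [cl_of_nonpos (by linarith)]
        simp
    · have := ih (x - 1)
      simp only [Nat.cast_zero, sub_zero, cl_of_one_le hx]
      linarith

lemma sum_tent_le (m : ℕ) (x : ℝ) :
    ∑ k ∈ Finset.range m, tent (x - k) ≤ 1 := by
  induction m generalizing x with
  | zero => simp
  | succ m ih =>
    rw [Finset.sum_range_succ']
    have e : ∀ k : ℕ, x - ((k + 1 : ℕ) : ℝ) = (x - 1) - k := by intro k; push_cast; ring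
    simp only [e]
    rcases le_total x 1 with hx | hx
    · rw [Finset.sum_eq_zero]
      · simpa using tent_le_one x
      · intro k _
        have : (0 : ℝ) ≤ k := Nat.cast_nonneg k
        exact tent_of_nonpos (by linarith)
    · have := ih (x - 1)
      simp only [Nat.cast_zero, sub_zero, tent_of_one_le hx]
      linarith

lemma SN_le (N : ℕ) {u v : ℝ} (hu0 : 0 ≤ u) (hu1 : u ≤ 1) : SN N u v ≤ u := by
  have hp : (0 : ℝ) < 2 ^ N := by positivity
  calc SN N u v ≤ ∑ k ∈ Finset.range (2 ^ N), cl (2 ^ N * u - k) / 2 ^ N := by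
        unfold SN
        refine Finset.sum_le_sum fun k _ => ?_
        have := cl_nonneg (2 ^ N * u - k)
        have := cl_le_one (2 ^ N * v - k)
        gcongr
        nlinarith
    _ = u := by
        rw [← Finset.sum_div, sum_cl _ _ (by positivity)]
        · field_simp
        · push_cast; nlinarith

lemma le_SN (N : ℕ) {u v : ℝ} (hu0 : 0 ≤ u) (hu1 : u ≤ 1) (huv : u ≤ v) :
    u - 1 / 2 ^ N ≤ SN N u v := by
  have hp : (0 : ℝ) < 2 ^ N := by positivity
  have h1 : ∑ k ∈ Finset.range (2 ^ N), cl (2 ^ N * u - k) ^ 2 / 2 ^ N ≤ SN N u v := by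
    unfold SN
    refine Finset.sum_le_sum fun k _ => ?_
    have h1 := cl_nonneg (2 ^ N * u - k)
    have h2 : cl (2 ^ N * u - k) ≤ cl (2 ^ N * v - k) := cl_mono (by gcongr)
    gcongr
    nlinarith
  have h2 : ∑ k ∈ Finset.range (2 ^ N), (cl (2 ^ N * u - k) - cl (2 ^ N * u - k) ^ 2) / 2 ^ N
      ≤ 1 / 2 ^ N := by
    rw [← Finset.sum_div]
    gcongr
    exact sum_cl_sub_sq _ _
  have h3 : ∑ k ∈ Finset.range (2 ^ N), cl (2 ^ N * u - k) / 2 ^ N = u := by
    rw [← Finset.sum_div, sum_cl _ _ (by positivity)]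
    · field_simp
    · push_cast; nlinarith
  have h4 : ∑ k ∈ Finset.range (2 ^ N), (cl (2 ^ N * u - k) - cl (2 ^ N * u - k) ^ 2) / 2 ^ N
      = u - ∑ k ∈ Finset.range (2 ^ N), cl (2 ^ N * u - k) ^ 2 / 2 ^ N := by
    rw [← h3, ← Finset.sum_sub_distrib]
    refine Finset.sum_congr rfl fun k _ => ?_
    rw [h3]
    ring
  linarith

lemma SN_comm (N : ℕ) (u v : ℝ) : SN N u v = SN N v u := by
  unfold SN
  refine Finset.sum_congr rfl fun k _ => ?_
  ring

lemma tendsto_SN {u v : ℝ} (hu0 : 0 ≤ u) (hu1 : u ≤ 1) (hv0 : 0 ≤ v) (hv1 : v ≤ 1) :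
    Tendsto (fun N => SN N u v) atTop (𝓝 (min u v)) := by
  wlog huv : u ≤ v generalizing u v
  · have := this hv0 hv1 hu0 hu1 (le_of_not_ge huv)
    simp_rw [SN_comm _ u v, min_comm u v]
    exact this
  rw [min_eq_left huv]
  have h : Tendsto (fun N : ℕ => u - 1 / (2 : ℝ) ^ N) atTop (𝓝 (u - 0)) := by
    apply Tendsto.const_sub
    have := tendsto_pow_atTop_nhds_zero_of_lt_one (r := (1 / 2 : ℝ)) (by norm_num) (by norm_num)
    simpa [one_div] using this
  rw [sub_zero] at h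
  exact tendsto_of_tendsto_of_tendsto_of_le_of_le h tendsto_const_nhds
    (fun N => le_SN N hu0 hu1 huv) (fun N => SN_le N hu0 hu1)

end Pool.Agent.Lib.MP_d1eed2_pr
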