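import Mathlib
import Pool.Agent.Lib.MP_d1eed2_pr.GaussLim
import Pool.Agent.Lib.MP_d1eed2_pr.Schauder

open MeasureTheory ProbabilityTheory Filter Topology
open scoped NNReal ENNReal

namespace Pool.Agent.Lib.MP_d1eed2_pr

/-- the i.i.d. standard Gaussian space -/
noncomputable def P0 : Measure (ℕ × ℕ → ℝ) := Measure.infinitePi (fun _ => gaussianReal 0 1)

instance : IsProbabilityMeasure P0 := by unfold P0; infer_instance

lemma P0_map_eval (p : ℕ × ℕ) : P0.map (fun ω => ω p) = gaussianReal 0 1 :=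
  Measure.infinitePi_map_eval _ p

lemma P0_indep : iIndepFun (fun (p : ℕ × ℕ) (ω : ℕ × ℕ → ℝ) => ω p) P0 :=
  iIndepFun_infinitePi (X := fun _ x => x) (fun _ => measurable_id)

lemma P0_gauss (p : ℕ × ℕ) : HasGaussianLaw (fun ω : ℕ × ℕ → ℝ => ω p) P0 := by
  constructor
  rw [P0_map_eval]
  infer_instance

lemma P0_var (p : ℕ × ℕ) : Var[fun ω : ℕ × ℕ → ℝ => ω p; P0] = 1 := by
  have hl : HasLaw (fun ω : ℕ × ℕ → ℝ => ω p) (gaussianReal 0 1) P0 :=
    ⟨(measurable_pi_apply p).aemeasurable, P0_map_eval p⟩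
  rw [hl.variance_eq, variance_id_gaussianReal]
  simp

lemma P0_mean (p : ℕ × ℕ) : P0[fun ω : ℕ × ℕ → ℝ => ω p] = 0 := by
  have h : ∫ x, x ∂(P0.map (fun ω => ω p)) = 0 := by
    rw [P0_map_eval]; exact integral_id_gaussianReal
  rwa [integral_map (measurable_pi_apply p).aemeasurable (by fun_prop)] at h

lemma P0_cov (p q : ℕ × ℕ) :
    cov[fun ω : ℕ × ℕ → ℝ => ω p, fun ω => ω q; P0] = if p = q then 1 else 0 := by
  split_ifs with h
  · subst h
    rw [covariance_self (measurable_pi_apply p).aemeasurable, P0_var]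
  · exact (P0_indep.indepFun h).covariance_eq_zero (P0_gauss p).memLp_two (P0_gauss q).memLp_two

lemma isGaussianProcess_lin {T : Type*} (J : Finset (ℕ × ℕ)) (c : T → ℕ × ℕ → ℝ) :
    IsGaussianProcess (fun t (ω : ℕ × ℕ → ℝ) => ∑ p ∈ J, c t p * ω p) P0 := by
  have h0 : IsGaussianProcess (fun (p : ℕ × ℕ) (ω : ℕ × ℕ → ℝ) => ω p) P0 := by
    constructor
    intro I
    exact iIndepFun.hasGaussianLaw (X := fun (p : I) (ω : ℕ × ℕ → ℝ) => ω p)
      (fun p => P0_gauss p) (P0_indep.precomp Subtype.val_injective)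
  refine h0.of_isGaussianProcess fun t => ⟨J,
    { toFun x := ∑ p : J, c t p * x p
      map_add' x y := by simp [mul_add, Finset.sum_add_distrib]
      map_smul' r x := by simp only [Pi.smul_apply, smul_eq_mul, RingHom.id_apply, Finset.mul_sum]
                          refine Finset.sum_congr rfl fun p _ => by ring
      cont := by fun_prop }, ?_⟩
  intro ω
  rw [← Finset.sum_coe_sort J (fun p => c t p * ω p)]
  rfl

lemma cov_lin (J : Finset (ℕ × ℕ)) (c d : ℕ × ℕ → ℝ) :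
    cov[fun ω : ℕ × ℕ → ℝ => ∑ p ∈ J, c p * ω p, fun ω => ∑ p ∈ J, d p * ω p; P0]
      = ∑ p ∈ J, c p * d p := by
  have hc : (fun ω : ℕ × ℕ → ℝ => ∑ p ∈ J, c p * ω p) = fun ω => ∑ p : J, c p * ω p := by
    ext ω; rw [← Finset.sum_coe_sort J (fun p => c p * ω p)]
  have hd : (fun ω : ℕ × ℕ → ℝ => ∑ p ∈ J, d p * ω p) = fun ω => ∑ p : J, d p * ω p := by
    ext ω; rw [← Finset.sum_coe_sort J (fun p => d p * ω p)]
  rw [hc, hd, covariance_fun_sum_fun_sum
    (X := fun (p : J) (ω : ℕ × ℕ → ℝ) => c p * ω p) (Y := fun (p : J) (ω : ℕ × ℕ → ℝ) => d p * ω p)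
    (fun p => (P0_gauss p).memLp_two.const_mul _) (fun p => (P0_gauss p).memLp_two.const_mul _)]
  rw [← Finset.sum_coe_sort J (fun p => c p * d p)]
  refine Finset.sum_congr rfl fun p _ => ?_
  rw [Finset.sum_eq_single p]
  · rw [covariance_const_mul_left, covariance_const_mul_right, P0_cov]
    simp
  · intro q _ hq
    rw [covariance_const_mul_left, covariance_const_mul_right, P0_cov]
    have : (p : ℕ × ℕ) ≠ q := fun h => hq (Subtype.ext h.symm)
    simp [this]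
  · intro h; exact absurd (Finset.mem_univ _) h

/-- scaling `2^{-n/2}` -/
noncomputable def sc : ℝ := (√2)⁻¹

lemma sc_sq : sc ^ 2 = 1 / 2 := by
  unfold sc; rw [inv_pow, Real.sq_sqrt (by norm_num)]; norm_num

lemma sc_pos : 0 < sc := by unfold sc; positivity

lemma sc_lt : sc * (5 / 4) < 1 := by
  have h1 := sc_sq
  have h2 := sc_pos
  nlinarith

/-- level `n` of the Schauder series -/
noncomputable def Fl (n : ℕ) (u : ℝ) (ω : ℕ × ℕ → ℝ) : ℝ :=
  ∑ k ∈ Finset.range (2 ^ n), (tent (2 ^ n * u - k) * sc ^ n) * ω (n, k)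

/-- index set of the first `N` levels -/
def JN (N : ℕ) : Finset (ℕ × ℕ) :=
  ((Finset.range N).sigma fun n => Finset.range (2 ^ n)).map (Equiv.sigmaEquivProd ℕ ℕ).toEmbedding

lemma sum_JN (N : ℕ) (f : ℕ × ℕ → ℝ) :
    ∑ p ∈ JN N, f p = ∑ n ∈ Finset.range N, ∑ k ∈ Finset.range (2 ^ n), f (n, k) := by
  unfold JN
  rw [Finset.sum_map, Finset.sum_sigma]
  rfl

/-- partial sums of the process -/
noncomputable def XN (N : ℕ) (t : ℝ≥0) (ω : ℕ × ℕ → ℝ) : ℝ :=
  (1 + t) * ∑ n ∈ Finset.range N, Fl n (t / (1 + t)) ω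

lemma XN_eq (N : ℕ) (t : ℝ≥0) (ω : ℕ × ℕ → ℝ) :
    XN N t ω = ∑ p ∈ JN N, ((1 + t) * (tent (2 ^ p.1 * (t / (1 + t)) - p.2) * sc ^ p.1)) * ω p := by
  rw [sum_JN]
  unfold XN Fl
  rw [Finset.mul_sum]
  refine Finset.sum_congr rfl fun n _ => ?_
  rw [Finset.mul_sum]
  refine Finset.sum_congr rfl fun k _ => ?_
  ring

lemma XN_gauss (N : ℕ) : IsGaussianProcess (XN N) P0 := by
  have : XN N = fun (t : ℝ≥0) (ω : ℕ × ℕ → ℝ) => ∑ p ∈ JN N,
      ((1 + t) * (tent (2 ^ p.1 * (t / (1 + t)) - p.2) * sc ^ p.1)) * ω p := by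
    ext t ω; exact XN_eq N t ω
  rw [this]
  exact isGaussianProcess_lin (JN N)
    (fun (t : ℝ≥0) p => ((1 + t) * (tent (2 ^ p.1 * (t / (1 + t)) - p.2) * sc ^ p.1)))

lemma XN_mean (N : ℕ) (t : ℝ≥0) : P0[XN N t] = 0 := by
  have : XN N t = fun (ω : ℕ × ℕ → ℝ) => ∑ p ∈ JN N,
      ((1 + t) * (tent (2 ^ p.1 * (t / (1 + t)) - p.2) * sc ^ p.1)) * ω p := by
    ext ω; exact XN_eq N t ω
  rw [this, integral_finsetSum]
  · refine Finset.sum_eq_zero fun p _ => ?_
    rw [integral_const_mul, P0_mean, mul_zero]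
  · intro p _
    exact (P0_gauss p).integrable.const_mul _

lemma XN_cov (N : ℕ) (s t : ℝ≥0) : cov[XN N s, XN N t; P0]
    = (1 + s) * (1 + t) * (SN N (s / (1 + s)) (t / (1 + t)) - SN 0 (s / (1 + s)) (t / (1 + t))) := by
  have h : ∀ t : ℝ≥0, XN N t = fun (ω : ℕ × ℕ → ℝ) => ∑ p ∈ JN N,
      ((1 + t) * (tent (2 ^ p.1 * (t / (1 + t)) - p.2) * sc ^ p.1)) * ω p := by
    intro t; ext ω; exact XN_eq N t ω
  rw [h s, h t, cov_lin, sum_JN, ← sum_tent_eq, Finset.mul_sum]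
  refine Finset.sum_congr rfl fun n _ => ?_
  rw [Finset.mul_sum]
  refine Finset.sum_congr rfl fun k _ => ?_
  have : sc ^ n * sc ^ n = 1 / 2 ^ n := by
    rw [← mul_pow, ← sq, sc_sq, one_div, one_div, inv_pow]
  calc _ = (1 + (s:ℝ)) * (1 + t) * (tent (2 ^ n * (s / (1 + s)) - k) *
        tent (2 ^ n * (t / (1 + t)) - k)) * (sc ^ n * sc ^ n) := by ring
    _ = _ := by rw [this]; ring

lemma tendsto_XN_cov (s t : ℝ≥0) :
    Tendsto (fun N => cov[XN N s, XN N t; P0]) atTop (𝓝 ((min s t : ℝ≥0) : ℝ)) := by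
  simp only [XN_cov]
  have hs : (0 : ℝ) ≤ s / (1 + s) := by positivity
  have ht : (0 : ℝ) ≤ t / (1 + t) := by positivity
  have hs1 : (s : ℝ) / (1 + s) ≤ 1 := by
    rw [div_le_one (by positivity)]; linarith
  have ht1 : (t : ℝ) / (1 + t) ≤ 1 := by
    rw [div_le_one (by positivity)]; linarith
  have h := (((tendsto_SN hs hs1 ht ht1).sub_const (SN 0 (s / (1 + s)) (t / (1 + t)))).const_mul
    ((1 + (s : ℝ)) * (1 + t)))
  convert h using 2
  rw [SN_zero hs hs1 ht ht1]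
  have hs' : (0 : ℝ) < 1 + s := by positivity
  have ht' : (0 : ℝ) < 1 + t := by positivity
  rcases le_total s t with hst | hst
  · have hst' : (s : ℝ) ≤ t := by exact_mod_cast hst
    have : (s : ℝ) / (1 + s) ≤ t / (1 + t) := by
      rw [div_le_div_iff₀ hs' ht']; nlinarith
    rw [min_eq_left this, min_eq_left hst]
    field_simp
    ring
  · have hst' : (t : ℝ) ≤ s := by exact_mod_cast hst
    have : (t : ℝ) / (1 + t) ≤ s / (1 + s) := by
      rw [div_le_div_iff₀ ht' hs']; nlinarith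
    rw [min_eq_right this, min_eq_right hst]
    field_simp
    ring

/-- good set -/
def Good : Set (ℕ × ℕ → ℝ) := {ω | ∃ C : ℕ, ∀ n k, k < 2 ^ n → |ω (n, k)| ≤ C * (5 / 4) ^ n}

lemma measurableSet_Good : MeasurableSet Good := by
  have : Good = ⋃ C : ℕ, ⋂ n : ℕ, ⋂ k : ℕ, ⋂ _ : k < 2 ^ n,
      {ω : ℕ × ℕ → ℝ | |ω (n, k)| ≤ C * (5 / 4) ^ n} := by
    ext ω; simp [Good]
  rw [this]
  refine MeasurableSet.iUnion fun C => MeasurableSet.iInter fun n => MeasurableSet.iInter fun k =>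
    MeasurableSet.iInter fun _ => ?_
  exact measurableSet_le (by fun_prop) measurable_const

lemma ae_Good : ∀ᵐ ω ∂P0, ω ∈ Good := by
  set M : ℝ≥0∞ := ∫⁻ x, ‖x‖ₑ ^ 4 ∂(gaussianReal 0 1) with hM
  have hMtop : M < ⊤ := by
    have h := (memLp_id_gaussianReal (μ := 0) (v := 1) 4).eLpNorm_lt_top
    rw [eLpNorm_lt_top_iff_lintegral_rpow_enorm_lt_top (by norm_num) (by norm_num)] at h
    simpa [hM] using h
  have hcoord : ∀ p : ℕ × ℕ, ∫⁻ ω, ‖ω p‖ₑ ^ 4 ∂P0 = M := by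
    intro p
    rw [hM, ← P0_map_eval p, lintegral_map (by fun_prop) (by fun_prop)]
  set r : ℝ≥0∞ := ENNReal.ofReal (2 / (5 / 4) ^ 4) with hr
  set f : ℕ → (ℕ × ℕ → ℝ) → ℝ≥0∞ := fun n ω =>
    ∑ k ∈ Finset.range (2 ^ n), ENNReal.ofReal ((1 / (5 / 4) ^ 4) ^ n) * ‖ω (n, k)‖ₑ ^ 4 with hf
  have hfi : ∀ n, ∫⁻ ω, f n ω ∂P0 = r ^ n * M := by
    intro n
    simp only [hf]
    rw [lintegral_finsetSum _ (fun k _ => by fun_prop)]
    simp_rw [lintegral_const_mul _ (show Measurable fun ω : ℕ × ℕ → ℝ => ‖ω (n, _)‖ₑ ^ 4 by fun_prop),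
      hcoord]
    rw [Finset.sum_const, Finset.card_range, nsmul_eq_mul, ← mul_assoc]
    congr 1
    rw [hr, ← ENNReal.ofReal_pow (by positivity)]
    have : ((2 ^ n : ℕ) : ℝ≥0∞) = ENNReal.ofReal (2 ^ n) := by
      rw [ENNReal.ofReal_pow (by norm_num)]; simp
    rw [this, ← ENNReal.ofReal_mul (by positivity), ← mul_pow]
    congr 2
    norm_num
  have hsum : ∫⁻ ω, ∑' n, f n ω ∂P0 < ⊤ := by
    rw [lintegral_tsum (fun n => by fun_prop)]
    simp_rw [hfi]
    rw [ENNReal.tsum_mul_right, ENNReal.tsum_geometric]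
    apply ENNReal.mul_lt_top _ hMtop
    rw [ENNReal.inv_lt_top, tsub_pos_iff_lt, hr]
    rw [ENNReal.ofReal_lt_one]
    norm_num
  have hae := ae_lt_top (by fun_prop) hsum.ne
  filter_upwards [hae] with ω hω
  obtain ⟨C, hC⟩ : ∃ C : ℕ, (∑' n, f n ω) ≤ C := by
    obtain ⟨C, hC⟩ := exists_nat_ge (∑' n, f n ω).toReal
    refine ⟨C, ?_⟩
    rw [← ENNReal.ofReal_toReal hω.ne]
    calc ENNReal.ofReal _ ≤ ENNReal.ofReal C := ENNReal.ofReal_le_ofReal hC
      _ = C := by simp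
  refine ⟨C + 1, fun n k hk => ?_⟩
  have h1 : ENNReal.ofReal ((1 / (5 / 4) ^ 4) ^ n) * ‖ω (n, k)‖ₑ ^ 4 ≤ C := by
    calc _ ≤ f n ω := by
          simp only [hf]
          exact Finset.single_le_sum (f := fun k => ENNReal.ofReal ((1 / (5 / 4) ^ 4) ^ n)
            * ‖ω (n, k)‖ₑ ^ 4) (fun _ _ => zero_le) (Finset.mem_range.2 hk)
      _ ≤ ∑' n, f n ω := ENNReal.le_tsum n
      _ ≤ C := hC
  have h2 : ((1 / (5 / 4) ^ 4) ^ n : ℝ) * |ω (n, k)| ^ 4 ≤ C := by
    have e : ENNReal.ofReal ((1 / (5 / 4) ^ 4) ^ n) * ‖ω (n, k)‖ₑ ^ 4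
        = ENNReal.ofReal ((1 / (5 / 4) ^ 4) ^ n * |ω (n, k)| ^ 4) := by
      rw [ENNReal.ofReal_mul (by positivity), ENNReal.ofReal_pow (abs_nonneg _)]
      congr 2
      rw [← ofReal_norm, Real.norm_eq_abs]
    rw [e] at h1
    have := (ENNReal.ofReal_le_natCast).1 h1
    exact this
  set a : ℝ := (4 / 5) ^ n * |ω (n, k)| with ha
  have ha0 : 0 ≤ a := by positivity
  have h3 : a ^ 4 ≤ C := by
    have : a ^ 4 = ((1 / (5 / 4) ^ 4) ^ n : ℝ) * |ω (n, k)| ^ 4 := by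
      rw [ha, mul_pow, ← pow_mul, mul_comm n 4, pow_mul]; norm_num
    rw [this]; exact h2
  have h4 : a ≤ C + 1 := by
    by_contra hcon
    push Not at hcon
    have hC0 : (0 : ℝ) ≤ C := Nat.cast_nonneg C
    have h5 : 1 ≤ a := by linarith
    have : a ≤ a ^ 4 := le_self_pow₀ h5 (by norm_num)
    linarith
  have h5 : |ω (n, k)| = a * (5 / 4) ^ n := by
    rw [ha, mul_right_comm, ← mul_pow]; norm_num
  rw [h5]
  push_cast
  gcongr

/-- the series, on the good set -/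
lemma Fl_bound {ω : ℕ × ℕ → ℝ} {C : ℕ} (hC : ∀ n k, k < 2 ^ n → |ω (n, k)| ≤ C * (5 / 4) ^ n)
    (n : ℕ) (u : ℝ) : ‖Fl n u ω‖ ≤ C * (sc * (5 / 4)) ^ n := by
  unfold Fl
  have hsc := sc_pos
  calc ‖∑ k ∈ Finset.range (2 ^ n), (tent (2 ^ n * u - k) * sc ^ n) * ω (n, k)‖
      ≤ ∑ k ∈ Finset.range (2 ^ n), ‖(tent (2 ^ n * u - k) * sc ^ n) * ω (n, k)‖ :=
        norm_sum_le _ _
    _ ≤ ∑ k ∈ Finset.range (2 ^ n), tent (2 ^ n * u - k) * (sc ^ n * (C * (5 / 4) ^ n)) := by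
        refine Finset.sum_le_sum fun k hk => ?_
        rw [norm_mul, norm_mul, Real.norm_of_nonneg (tent_nonneg _),
          Real.norm_of_nonneg (by positivity : (0:ℝ) ≤ sc ^ n), Real.norm_eq_abs, mul_assoc]
        have := hC n k (Finset.mem_range.1 hk)
        have := tent_nonneg (2 ^ n * u - k)
        gcongr
    _ = (∑ k ∈ Finset.range (2 ^ n), tent (2 ^ n * u - k)) * (sc ^ n * (C * (5 / 4) ^ n)) := by
        rw [Finset.sum_mul]
    _ ≤ 1 * (sc ^ n * (C * (5 / 4) ^ n)) := by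
        gcongr
        exact sum_tent_le _ _
    _ = _ := by rw [mul_pow]; ring

lemma Fl_continuous (n : ℕ) (ω : ℕ × ℕ → ℝ) : Continuous fun u => Fl n u ω := by
  unfold Fl
  have := continuous_tent
  fun_prop

lemma Fl_zero (n : ℕ) (ω : ℕ × ℕ → ℝ) : Fl n 0 ω = 0 := by
  unfold Fl
  refine Finset.sum_eq_zero fun k _ => ?_
  have : (0 : ℝ) ≤ k := Nat.cast_nonneg k
  rw [tent_of_nonpos (by linarith)]
  simp

lemma summable_bound (C : ℕ) : Summable fun n : ℕ => (C : ℝ) * (sc * (5 / 4)) ^ n := by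
  have hsc := sc_pos
  exact (summable_geometric_of_lt_one (by positivity) sc_lt).mul_left _

open Classical in
/-- Brownian motion -/
noncomputable def W0 (t : ℝ≥0) (ω : ℕ × ℕ → ℝ) : ℝ :=
  if ω ∈ Good then (1 + t) * ∑' n, Fl n (t / (1 + t)) ω else 0

lemma W0_continuous (ω : ℕ × ℕ → ℝ) : Continuous fun t => W0 t ω := by
  unfold W0
  by_cases h : ω ∈ Good
  · simp only [h, if_true]
    obtain ⟨C, hC⟩ := h
    have h1 : Continuous fun u : ℝ => ∑' n, Fl n u ω :=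
      continuous_tsum (fun n => Fl_continuous n ω) (summable_bound C) (fun n u => Fl_bound hC n u)
    have h2 : Continuous fun t : ℝ≥0 => (t : ℝ) / (1 + t) := by
      apply Continuous.div (by fun_prop) (by fun_prop)
      intro t
      positivity
    exact (by fun_prop : Continuous fun t : ℝ≥0 => (1 + (t:ℝ))).mul (h1.comp h2)
  · simp only [h, if_false]
    exact continuous_const

lemma W0_zero (ω : ℕ × ℕ → ℝ) : W0 0 ω = 0 := by
  unfold W0
  split_ifs
  · simp [Fl_zero]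
  · rfl

lemma tendsto_XN (t : ℝ≥0) {ω : ℕ × ℕ → ℝ} (h : ω ∈ Good) :
    Tendsto (fun N => XN N t ω) atTop (𝓝 (W0 t ω)) := by
  unfold XN W0
  simp only [h, if_true]
  obtain ⟨C, hC⟩ := h
  apply Tendsto.const_mul
  exact (Summable.of_norm_bounded (summable_bound C)
    (fun n => Fl_bound hC n (t / (1 + t)))).hasSum.tendsto_sum_nat

lemma Fl_measurable (n : ℕ) (u : ℝ) : Measurable fun ω => Fl n u ω := by
  unfold Fl
  fun_prop

lemma W0_measurable (t : ℝ≥0) : Measurable (W0 t) := by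
  classical
  have h1 : ∀ N, Measurable (fun ω => if ω ∈ Good then XN N t ω else 0) := by
    intro N
    refine Measurable.ite measurableSet_Good ?_ measurable_const
    unfold XN
    have := Fl_measurable
    fun_prop
  refine measurable_of_tendsto_metrizable h1 ?_
  rw [tendsto_pi_nhds]
  intro ω
  by_cases h : ω ∈ Good
  · simp only [h, if_true]
    exact tendsto_XN t h
  · simp only [h, if_false]
    unfold W0
    simp only [h, if_false]
    exact tendsto_const_nhds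

theorem W0_isPreBrownian : IsPreBrownianReal W0 P0 :=
  isPreBrownianReal_of_tendsto XN_gauss XN_mean tendsto_XN_cov
    (fun t => (W0_measurable t).aemeasurable)
    (fun t => ae_Good.mono fun ω h => tendsto_XN t h)

end Pool.Agent.Lib.MP_d1eed2_pr
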