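import Mathlib

open MeasureTheory ProbabilityTheory Filter Topology
open scoped NNReal ENNReal

namespace Pool.Agent.Lib.MP_d1eed2_pr

/-- Times at least one unit after `s` at which the unit-lag increment of `w` is at least `h`. -/
def hitSet (h : ℝ) (w : ℝ → ℝ) (s : ℝ) : Set ℝ := {t | s + 1 ≤ t ∧ h ≤ w t - w (t - 1)}

/-- The first such time, capped at `s + 3`. -/
noncomputable def nxt (h : ℝ) (w : ℝ → ℝ) (s : ℝ) : ℝ := sInf (insert (s + 3) (hitSet h w s))

variable {h : ℝ} {w w' : ℝ → ℝ} {s s' z : ℝ}

lemma nxt_bddBelow : BddBelow (insert (s + 3) (hitSet h w s)) := by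
  refine ⟨s + 1, ?_⟩
  rintro t (rfl | ht)
  · linarith
  · exact ht.1

lemma nxt_nonempty : (insert (s + 3) (hitSet h w s)).Nonempty := ⟨_, Set.mem_insert _ _⟩

lemma nxt_le_add_three : nxt h w s ≤ s + 3 := csInf_le nxt_bddBelow (Set.mem_insert _ _)

lemma add_one_le_nxt : s + 1 ≤ nxt h w s := by
  apply le_csInf nxt_nonempty
  rintro t (rfl | ht)
  · linarith
  · exact ht.1

lemma isClosed_hitSet (hw : Continuous w) : IsClosed (hitSet h w s) := by
  unfold hitSet
  exact (isClosed_le continuous_const continuous_id).inter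
    (isClosed_le continuous_const (hw.sub (hw.comp (continuous_id.sub continuous_const))))

lemma nxt_mem (hw : Continuous w) : nxt h w s ∈ insert (s + 3) (hitSet h w s) :=
  ((isClosed_hitSet hw).union isClosed_singleton |> fun H => by
    have : insert (s + 3) (hitSet h w s) = hitSet h w s ∪ {s + 3} := by
      rw [Set.union_singleton]
    rw [← this] at H
    exact H.csInf_mem nxt_nonempty nxt_bddBelow)

lemma nxt_le_iff (hw : Continuous w) :
    nxt h w s ≤ z ↔ s + 3 ≤ z ∨ ∃ t, s + 1 ≤ t ∧ t ≤ z ∧ h ≤ w t - w (t - 1) := by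
  constructor
  · intro hz
    rcases nxt_mem (h := h) (s := s) hw with h1 | h1
    · left; rw [h1] at hz; exact hz
    · right; exact ⟨_, h1.1, hz, h1.2⟩
  · rintro (h1 | ⟨t, h1, h2, h3⟩)
    · exact nxt_le_add_three.trans h1
    · exact (csInf_le nxt_bddBelow (Set.mem_insert_of_mem _ ⟨h1, h3⟩)).trans h2

lemma nxt_mono (hw : Continuous w) (hss : s ≤ s') : nxt h w s ≤ nxt h w s' := by
  rw [nxt_le_iff hw]
  rcases nxt_mem (h := h) (s := s') hw with h1 | h1
  · left; rw [h1]; linarith
  · right; exact ⟨_, by linarith [h1.1], le_refl _, h1.2⟩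

/-- Locality. -/
lemma nxt_congr (hw : Continuous w) (hw' : Continuous w') {c : ℝ}
    (H : ∀ t, s ≤ t → t ≤ nxt h w s → w' t = w t + c) : nxt h w' s = nxt h w s := by
  have key : ∀ t, s + 1 ≤ t → t ≤ nxt h w s → w' t - w' (t - 1) = w t - w (t - 1) := by
    intro t h1 h2
    rw [H t (by linarith) h2, H (t - 1) (by linarith) (by linarith)]; ring
  apply le_antisymm
  · rw [nxt_le_iff hw']
    rcases nxt_mem (h := h) (s := s) hw with h1 | h1
    · left; rw [h1]
    · right
      refine ⟨_, h1.1, le_refl _, ?_⟩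
      rw [key _ h1.1 (le_refl _)]
      exact h1.2
  · by_contra hlt
    push Not at hlt
    have h2 : nxt h w s ≤ nxt h w' s := by
      rw [nxt_le_iff hw]
      rcases nxt_mem (h := h) (s := s) hw' with h1 | h1
      · left; rw [h1]
      · right
        refine ⟨_, h1.1, le_refl _, ?_⟩
        rw [← key _ h1.1 hlt.le]
        exact h1.2
    linarith

/-- Shift covariance. -/
lemma nxt_shift (a c : ℝ) : nxt h (fun t => w (a + t) - c) s = nxt h w (a + s) - a := by
  unfold nxt
  have : insert (a + s + 3) (hitSet h w (a + s))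
      = (fun t => a + t) '' (insert (s + 3) (hitSet h (fun t => w (a + t) - c) s)) := by
    ext t
    simp only [Set.mem_insert_iff, hitSet, Set.mem_ofPred_eq, Set.mem_image]
    constructor
    · rintro (rfl | ⟨h1, h2⟩)
      · exact ⟨s + 3, Or.inl rfl, by ring⟩
      · refine ⟨t - a, Or.inr ⟨by linarith, ?_⟩, by ring⟩
        have e1 : a + (t - a) = t := by ring
        have e2 : a + (t - a - 1) = t - 1 := by ring
        rw [e1, e2]; linarith
    · rintro ⟨u, (rfl | ⟨h1, h2⟩), rfl⟩
      · left; ring
      · right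
        refine ⟨by linarith, ?_⟩
        have e2 : a + (u - 1) = a + u - 1 := by ring
        rw [e2] at h2; linarith
  rw [this]
  have h3 := Monotone.map_csInf_of_continuousAt (f := fun t : ℝ => a + t)
    (A := insert (s + 3) (hitSet h (fun t => w (a + t) - c) s))
    (by fun_prop) (fun x y hxy => by simpa using hxy) nxt_nonempty nxt_bddBelow
  rw [← h3]; ring

/-- Duality: reversing time. -/
lemma nxt_dual (hw : Continuous w) (R : ℝ) (z : ℝ) :
    nxt h w s ≤ z ↔ nxt h (fun t => w R - w (R - t)) (R - z) ≤ R - s := by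
  have hw' : Continuous (fun t => w R - w (R - t)) := by fun_prop
  rw [nxt_le_iff hw, nxt_le_iff hw']
  constructor
  · rintro (h1 | ⟨t, h1, h2, h3⟩)
    · left; linarith
    · right
      refine ⟨R - t + 1, by linarith, by linarith, ?_⟩
      have e1 : R - (R - t + 1) = t - 1 := by ring
      have e2 : R - (R - t + 1 - 1) = t := by ring
      rw [e1, e2]; linarith
  · rintro (h1 | ⟨t, h1, h2, h3⟩)
    · left; linarith
    · right
      refine ⟨R - t + 1, by linarith, by linarith, ?_⟩
      have e1 : R - t + 1 - 1 = R - t := by ring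
      have e2 : R - (t - 1) = R - t + 1 := by ring
      rw [e2] at h3
      rw [e1]; linarith

/-- The two-point contraction event. -/
lemma nxt_sub_nxt_le (hw : Continuous w) {x y : ℝ}
    (hq : ∀ r, y + 1 ≤ r → r ≤ min x (y + 2) + 1 → w r - w (r - 1) < h)
    (hj : h ≤ w (x + 2) - w (x + 1)) :
    nxt h w x - nxt h w y ≤ max (x - y - 1) 0 := by
  have h1 : nxt h w x ≤ x + 2 := by
    rw [nxt_le_iff hw]
    right
    refine ⟨x + 2, by linarith, le_refl _, ?_⟩
    have : x + 2 - 1 = x + 1 := by ring
    rw [this]; exact hj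
  rcases nxt_mem (h := h) (s := y) hw with h2 | h2
  · rw [h2]
    have : nxt h w x - (y + 3) ≤ x - y - 1 := by linarith
    exact this.trans (le_max_left _ _)
  · -- the hit of `y` is after `min x (y+2) + 1`
    have h3 : min x (y + 2) + 1 < nxt h w y := by
      by_contra hcon
      push Not at hcon
      have := hq _ h2.1 hcon
      linarith [h2.2]
    rcases le_total x (y + 2) with hc | hc
    · rw [min_eq_left hc] at h3
      have h4 : nxt h w x ≤ nxt h w y := by
        rw [nxt_le_iff hw]
        right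
        exact ⟨_, h3.le, le_refl _, h2.2⟩
      have : nxt h w x - nxt h w y ≤ 0 := by linarith
      exact this.trans (le_max_right _ _)
    · rw [min_eq_right hc] at h3
      have : nxt h w x - nxt h w y ≤ x - y - 1 := by linarith
      exact this.trans (le_max_left _ _)

/-- The dual walk. -/
noncomputable def wk (h : ℝ) (N : ℕ → ℝ) (w : ℝ → ℝ) (a : ℝ) : ℕ → ℝ
  | 0 => a
  | m + 1 => nxt h w (wk h N w a m + N m)

end Pool.Agent.Lib.MP_d1eed2_pr
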