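import Mathlib
import Pool.Agent.Lib.MP_d1eed2_pr.Existence
import Pool.Agent.Lib.MP_d1eed2_pr.Walk

open MeasureTheory ProbabilityTheory Filter Topology
open scoped NNReal ENNReal

namespace Pool.Agent.Lib.MP_d1eed2_pr

/-- Continuous paths, with the product sigma-algebra. -/
abbrev Path := {e : ℝ≥0 → ℝ // Continuous e}

/-- Extension of a path to negative times. -/
def ext (e : ℝ≥0 → ℝ) : ℝ → ℝ := fun t => e t.toNNReal

lemma continuous_ext {e : ℝ≥0 → ℝ} (he : Continuous e) : Continuous (ext e) :=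
  he.comp continuous_real_toNNReal

lemma ext_coe (e : ℝ≥0 → ℝ) (t : ℝ≥0) : ext e (t : ℝ) = e t := by
  unfold ext; rw [Real.toNNReal_coe]

/-- Path map of a process. -/
def pathMap {Ω : Type*} (Z : ℝ≥0 → Ω → ℝ) (hc : ∀ ω, Continuous fun t => Z t ω) (ω : Ω) : Path :=
  ⟨fun t => Z t ω, hc ω⟩

lemma measurable_pathMap {Ω : Type*} {mΩ : MeasurableSpace Ω} {Z : ℝ≥0 → Ω → ℝ}
    (hc : ∀ ω, Continuous fun t => Z t ω) (hm : ∀ t, Measurable (Z t)) :
    Measurable (pathMap Z hc) :=
  (measurable_pi_lambda _ hm).subtype_mk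

lemma law_eq {Ω Ω' : Type*} {mΩ : MeasurableSpace Ω} {mΩ' : MeasurableSpace Ω'}
    {P : Measure Ω} {P' : Measure Ω'} {Z : ℝ≥0 → Ω → ℝ} {Z' : ℝ≥0 → Ω' → ℝ}
    (hZ : IsPreBrownianReal Z P) (hZ' : IsPreBrownianReal Z' P')
    (hm : ∀ t, Measurable (Z t)) (hm' : ∀ t, Measurable (Z' t)) :
    P.map (fun ω t => Z t ω) = P'.map (fun ω t => Z' t ω) := by
  have h1 : IsProjectiveLimit (P.map (fun ω t => Z t ω)) BrownianReal.projectiveFamily := by
    intro I
    rw [Measure.map_map (Finset.measurable_restrict I) (measurable_pi_lambda _ hm)]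
    exact (hZ.hasLaw I).map_eq
  have h2 : IsProjectiveLimit (P'.map (fun ω t => Z' t ω)) BrownianReal.projectiveFamily := by
    intro I
    rw [Measure.map_map (Finset.measurable_restrict I) (measurable_pi_lambda _ hm')]
    exact (hZ'.hasLaw I).map_eq
  exact h1.unique h2

/-- Wiener measure on continuous paths. -/
noncomputable def Wi : Measure Path := P0.map (pathMap W0 W0_continuous)

instance : IsProbabilityMeasure Wi :=
  Measure.isProbabilityMeasure_map (measurable_pathMap W0_continuous W0_measurable).aemeasurable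

lemma map_pathMap {Ω : Type*} {mΩ : MeasurableSpace Ω} {P : Measure Ω} {Z : ℝ≥0 → Ω → ℝ}
    (hZ : IsPreBrownianReal Z P) (hc : ∀ ω, Continuous fun t => Z t ω)
    (hm : ∀ t, Measurable (Z t)) : P.map (pathMap Z hc) = Wi := by
  ext s hs
  obtain ⟨B, hB, rfl⟩ := hs
  unfold Wi
  have hs : MeasurableSet ((Subtype.val : Path → (ℝ≥0 → ℝ)) ⁻¹' B) := measurable_subtype_coe hB
  rw [Measure.map_apply (measurable_pathMap hc hm) hs,
    Measure.map_apply (measurable_pathMap W0_continuous W0_measurable) hs]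
  have h := law_eq hZ W0_isPreBrownian hm W0_measurable
  have h1 : P.map (fun ω t => Z t ω) B = P0.map (fun ω t => W0 t ω) B := by rw [h]
  rw [Measure.map_apply (measurable_pi_lambda _ hm) hB,
    Measure.map_apply (measurable_pi_lambda _ W0_measurable) hB] at h1
  exact h1

/-- The canonical process under Wiener measure is a Brownian motion. -/
lemma Wi_isPreBrownian : IsPreBrownianReal (fun (t : ℝ≥0) (e : Path) => e.1 t) Wi where
  hasLaw I := by
    have hm : Measurable (fun e : Path => I.restrict (fun t => e.1 t)) :=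
      (Finset.measurable_restrict I).comp measurable_subtype_coe
    refine ⟨hm.aemeasurable, ?_⟩
    unfold Wi
    rw [Measure.map_map hm (measurable_pathMap W0_continuous W0_measurable)]
    exact (W0_isPreBrownian.hasLaw I).map_eq

lemma measurable_eval_path (t : ℝ≥0) : Measurable fun e : Path => e.1 t :=
  (measurable_pi_apply t).comp measurable_subtype_coe

/-- joint measurability of evaluation -/
lemma measurable_eval : Measurable fun p : ℝ × Path => ext p.2.1 p.1 := by
  have h1 : Measurable (Function.uncurry fun (t : ℝ≥0) (e : Path) => e.1 t) :=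
    measurable_uncurry_of_continuous_of_measurable (fun e => e.2) measurable_eval_path
  have h2 : Measurable fun p : ℝ × Path => (p.1.toNNReal, p.2) := by fun_prop
  exact h1.comp h2

/-- Countable description of the existence of a large value on a segment. -/
lemma exists_le_iff_countable {v : ℝ → ℝ} (hv : Continuous v) {a b h : ℝ} (hab : a ≤ b) :
    (∃ t, a ≤ t ∧ t ≤ b ∧ h ≤ v t) ↔
      ∀ n : ℕ, ∃ q : ℚ, (0 ≤ (q : ℝ) ∧ (q : ℝ) ≤ 1) ∧ h - 1 / (n + 1) < v (a + q * (b - a)) := by
  constructor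
  · rintro ⟨t, hat, htb, ht⟩ n
    obtain ⟨θ, hθ0, hθ1, rfl⟩ : ∃ θ : ℝ, 0 ≤ θ ∧ θ ≤ 1 ∧ t = a + θ * (b - a) := by
      rcases hab.eq_or_lt with rfl | hlt
      · exact ⟨0, le_refl _, zero_le_one, by linarith⟩
      · refine ⟨(t - a) / (b - a), div_nonneg (by linarith) (by linarith), ?_, ?_⟩
        · rw [div_le_one (by linarith)]; linarith
        · rw [div_mul_cancel₀ _ (by linarith : b - a ≠ 0)]; ring
    have hpos : (0 : ℝ) < 1 / (n + 1) := by positivity
    have hopen : IsOpen {θ : ℝ | h - 1 / (n + 1) < v (a + θ * (b - a))} :=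
      isOpen_lt continuous_const (by fun_prop)
    have hmem : θ ∈ {θ : ℝ | h - 1 / (n + 1) < v (a + θ * (b - a))} := by
      simp only [Set.mem_ofPred_eq]; linarith
    obtain ⟨ε, hε, hball⟩ := Metric.isOpen_iff.1 hopen θ hmem
    obtain ⟨q, hq0, hq1, hqd⟩ : ∃ q : ℚ, 0 ≤ (q : ℝ) ∧ (q : ℝ) ≤ 1 ∧ |(q : ℝ) - θ| < ε := by
      rcases hθ1.eq_or_lt with rfl | hlt
      · exact ⟨1, by norm_num, by norm_num, by simpa using hε⟩
      · obtain ⟨q, hq1, hq2⟩ := exists_rat_btwn (show θ < min 1 (θ + ε) by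
          rw [lt_min_iff]; constructor <;> linarith)
        rw [lt_min_iff] at hq2
        exact ⟨q, by linarith, by linarith, by rw [abs_lt]; constructor <;> linarith⟩
    refine ⟨q, ⟨hq0, hq1⟩, ?_⟩
    have := hball (show (q : ℝ) ∈ Metric.ball θ ε by rw [Metric.mem_ball, Real.dist_eq]; exact hqd)
    exact this
  · intro H
    obtain ⟨t, ht, hmax⟩ := (isCompact_Icc (a := a) (b := b)).exists_isMaxOn
      (Set.nonempty_Icc.2 hab) hv.continuousOn
    refine ⟨t, ht.1, ht.2, ?_⟩
    apply le_of_forall_pos_le_add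
    intro ε hε
    obtain ⟨n, hn⟩ := exists_nat_one_div_lt hε
    obtain ⟨q, ⟨hq0, hq1⟩, hq⟩ := H n
    have hmem : a + q * (b - a) ∈ Set.Icc a b := by
      constructor
      · nlinarith
      · nlinarith
    have := hmax hmem
    simp only [Set.mem_ofPred_eq] at this
    linarith

/-- Joint measurability of the stopping functional. -/
lemma measurable_nxt (h : ℝ) : Measurable fun p : ℝ × Path => nxt h (ext p.2.1) p.1 := by
  apply measurable_of_Iic
  intro z
  have : (fun p : ℝ × Path => nxt h (ext p.2.1) p.1) ⁻¹' Set.Iic z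
      = {p : ℝ × Path | p.1 + 3 ≤ z} ∪ ({p : ℝ × Path | p.1 + 1 ≤ z} ∩
        ⋂ n : ℕ, ⋃ q : ℚ, ⋃ _ : (0 ≤ (q : ℝ) ∧ (q : ℝ) ≤ 1),
          {p : ℝ × Path | h - 1 / (n + 1) < ext p.2.1 ((p.1 + 1) + q * (z - (p.1 + 1)))
            - ext p.2.1 ((p.1 + 1) + q * (z - (p.1 + 1)) - 1)}) := by
    ext p
    have hc := continuous_ext p.2.2
    simp only [Set.mem_preimage, Set.mem_Iic, nxt_le_iff hc, Set.mem_union, Set.mem_inter_iff,
      Set.mem_iInter, Set.mem_iUnion, exists_prop, Set.mem_ofPred_eq]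
    apply or_congr Iff.rfl
    constructor
    · rintro ⟨t, h1, h2, h3⟩
      have hle : p.1 + 1 ≤ z := h1.trans h2
      refine ⟨hle, ?_⟩
      exact (exists_le_iff_countable (v := fun t => ext p.2.1 t - ext p.2.1 (t - 1))
        (by fun_prop) hle).1 ⟨t, h1, h2, h3⟩
    · rintro ⟨hle, H⟩
      exact (exists_le_iff_countable (v := fun t => ext p.2.1 t - ext p.2.1 (t - 1))
        (by fun_prop) hle).2 H
  rw [this]
  refine (measurableSet_le (by fun_prop) measurable_const).union
    ((measurableSet_le (by fun_prop) measurable_const).inter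
    (MeasurableSet.iInter fun n => MeasurableSet.iUnion fun q => MeasurableSet.iUnion fun _ => ?_))
  refine measurableSet_lt measurable_const (Measurable.sub ?_ ?_)
  · exact measurable_eval.comp (f := fun p : ℝ × Path => ((p.1 + 1) + q * (z - (p.1 + 1)), p.2))
      (by fun_prop)
  · exact measurable_eval.comp (f := fun p : ℝ × Path =>
      ((p.1 + 1) + q * (z - (p.1 + 1)) - 1, p.2)) (by fun_prop)

end Pool.Agent.Lib.MP_d1eed2_pr
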