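import Mathlib
import Pool.Agent.Lib.MP_d1eed2_pr.Wiener

open MeasureTheory ProbabilityTheory Filter Topology
open scoped NNReal ENNReal

namespace Pool.Agent.Lib.MP_d1eed2_pr

/-! ### Past and future of a process -/

section PastFuture

variable {Ω : Type*} {mΩ : MeasurableSpace Ω} {P : Measure Ω} {Z : ℝ≥0 → Ω → ℝ}

/-- the process after time `r` -/
def fut (Z : ℝ≥0 → Ω → ℝ) (r : ℝ≥0) : ℝ≥0 → Ω → ℝ := fun t ω => Z (r + t) ω - Z r ω

/-- the process stopped at time `r` -/
def pst (Z : ℝ≥0 → Ω → ℝ) (r : ℝ≥0) : ℝ≥0 → Ω → ℝ := fun t ω => Z (min t r) ω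

lemma fut_cont (hc : ∀ ω, Continuous fun t => Z t ω) (r : ℝ≥0) (ω : Ω) :
    Continuous fun t => fut Z r t ω := by
  unfold fut
  exact ((hc ω).comp (continuous_const.add continuous_id)).sub continuous_const

lemma pst_cont (hc : ∀ ω, Continuous fun t => Z t ω) (r : ℝ≥0) (ω : Ω) :
    Continuous fun t => pst Z r t ω := by
  unfold pst
  exact (hc ω).comp (continuous_id.min continuous_const)

lemma fut_meas (hm : ∀ t, Measurable (Z t)) (r t : ℝ≥0) : Measurable (fut Z r t) :=
  (hm _).sub (hm _)

lemma pst_meas (hm : ∀ t, Measurable (Z t)) (r t : ℝ≥0) : Measurable (pst Z r t) := hm _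

/-- the sigma-algebra of the past of time `r` -/
@[reducible] def past (Z : ℝ≥0 → Ω → ℝ) (hc : ∀ ω, Continuous fun t => Z t ω) (r : ℝ≥0) : MeasurableSpace Ω :=
  MeasurableSpace.comap (pathMap (pst Z r) (pst_cont hc r)) inferInstance

lemma past_le (hc : ∀ ω, Continuous fun t => Z t ω) (hm : ∀ t, Measurable (Z t)) (r : ℝ≥0) :
    past Z hc r ≤ mΩ :=
  (measurable_pathMap (pst_cont hc r) (pst_meas hm r)).comap_le

lemma indep_past_fut (hZ : IsPreBrownianReal Z P) (hc : ∀ ω, Continuous fun t => Z t ω)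
    (r : ℝ≥0) :
    Indep (past Z hc r)
      (MeasurableSpace.comap (pathMap (fut Z r) (fut_cont hc r)) inferInstance) P := by
  have h := hZ.indepFun_shift r
  rw [IndepFun_iff_Indep] at h
  refine indep_of_indep_of_le_left (indep_of_indep_of_le_right h.symm ?_) ?_
  · rw [show (inferInstance : MeasurableSpace Path)
      = MeasurableSpace.comap Subtype.val MeasurableSpace.pi from rfl, MeasurableSpace.comap_comp]
    exact le_refl _
  · unfold past
    rw [show (inferInstance : MeasurableSpace Path)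
      = MeasurableSpace.comap Subtype.val MeasurableSpace.pi from rfl, MeasurableSpace.comap_comp]
    have e : (Subtype.val ∘ pathMap (pst Z r) (pst_cont hc r))
        = (fun (g : Set.Iic r → ℝ) (t : ℝ≥0) => g ⟨min t r, Set.mem_Iic.2 (min_le_right _ _)⟩) ∘
          (fun ω (t : Set.Iic r) => Z t ω) := by
      ext ω t; rfl
    rw [e, ← MeasurableSpace.comap_comp]
    apply MeasurableSpace.comap_mono
    exact Measurable.comap_le (by fun_prop)

lemma fut_law (hZ : IsPreBrownianReal Z P) (hc : ∀ ω, Continuous fun t => Z t ω)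
    (hm : ∀ t, Measurable (Z t)) (r : ℝ≥0) :
    P.map (pathMap (fut Z r) (fut_cont hc r)) = Wi :=
  map_pathMap (hZ.shift r) (fut_cont hc r) (fut_meas hm r)

end PastFuture

/-- shift of a path -/
def shp (r : ℝ≥0) (e : Path) : Path :=
  pathMap (fut (fun (t : ℝ≥0) (e : Path) => e.1 t) r) (fut_cont (fun e => e.2) r) e

lemma shp_law (r : ℝ≥0) : Wi.map (shp r) = Wi :=
  fut_law Wi_isPreBrownian (fun e => e.2) measurable_eval_path r

lemma measurable_shp (r : ℝ≥0) : Measurable (shp r) :=
  measurable_pathMap (fut_cont (fun e => e.2) r) (fut_meas measurable_eval_path r)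

lemma ext_shp (x : ℝ≥0) (e : Path) {t : ℝ} (ht : 0 ≤ t) :
    ext (shp x e).1 t = ext e.1 (x + t) - e.1 x := by
  lift t to ℝ≥0 using ht
  rw [ext_coe, ← NNReal.coe_add, ext_coe]
  rfl

/-- general shift formula for the functional -/
lemma nxt_fut {e e' : ℝ≥0 → ℝ} (he : Continuous e) (he' : Continuous e') (r : ℝ≥0) (c : ℝ)
    (H : ∀ t, e' t = e (r + t) - c) {x : ℝ} (hx : 0 ≤ x) (h : ℝ) :
    nxt h (ext e') x = nxt h (ext e) (r + x) - r := by
  have h1 := continuous_ext he
  rw [← nxt_shift (h := h) (w := ext e) (s := x) (r : ℝ) c]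
  refine nxt_congr (c := 0) (by fun_prop) (continuous_ext he') ?_
  intro t ht _
  have ht0 : 0 ≤ t := hx.trans ht
  lift t to ℝ≥0 using ht0
  rw [ext_coe, ← NNReal.coe_add, ext_coe, H, add_zero]

/-- displacement -/
noncomputable def disp (h : ℝ) (e : Path) (x : ℝ) : ℝ := nxt h (ext e.1) x - x

lemma disp_eq (h : ℝ) (e : Path) (x : ℝ≥0) :
    nxt h (ext e.1) x - x = nxt h (ext (shp x e).1) 0 := by
  rw [nxt_fut e.2 (shp x e).2 x (e.1 x) (fun t => rfl) (le_refl 0) h, add_zero]

lemma measurable_nxt_fix (h : ℝ) (x : ℝ) : Measurable fun e : Path => nxt h (ext e.1) x :=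
  (measurable_nxt h).comp (f := fun e : Path => (x, e)) (by fun_prop)

lemma integrable_nxt_fix (h : ℝ) (x : ℝ) : Integrable (fun e : Path => nxt h (ext e.1) x) Wi := by
  apply Integrable.of_bound (measurable_nxt_fix h x).aestronglyMeasurable (|x| + 3)
  filter_upwards with e
  rw [Real.norm_eq_abs, abs_le]
  have h1 := nxt_le_add_three (h := h) (w := ext e.1) (s := x)
  have h2 := add_one_le_nxt (h := h) (w := ext e.1) (s := x)
  have h3 := le_abs_self x
  have h4 := neg_abs_le x
  constructor <;> linarith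

lemma integral_disp (h : ℝ) (x : ℝ≥0) :
    ∫ e, (nxt h (ext e.1) x - x) ∂Wi = ∫ e, nxt h (ext e.1) 0 ∂Wi := by
  simp_rw [disp_eq]
  have h1 := integral_map (μ := Wi) (measurable_shp x).aemeasurable
    (f := fun e : Path => nxt h (ext e.1) 0) (measurable_nxt_fix h 0).aestronglyMeasurable
  rw [shp_law] at h1
  exact h1.symm

/-- The mean of the two-point displacement. -/
lemma lintegral_two_point (h : ℝ) {x y : ℝ} (hy : 0 ≤ y) (hxy : y ≤ x) :
    ∫⁻ e, ENNReal.ofReal (nxt h (ext e.1) x - nxt h (ext e.1) y) ∂Wi = ENNReal.ofReal (x - y) := by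
  have hx : 0 ≤ x := hy.trans hxy
  lift x to ℝ≥0 using hx
  lift y to ℝ≥0 using hy
  rw [← ofReal_integral_eq_lintegral_ofReal]
  · congr 1
    rw [integral_sub (integrable_nxt_fix h x) (integrable_nxt_fix h y)]
    have h1 := integral_disp h x
    have h2 := integral_disp h y
    rw [integral_sub (integrable_nxt_fix h _) (integrable_const _)] at h1 h2
    simp only [integral_const, probReal_univ, one_smul] at h1 h2
    linarith
  · exact (integrable_nxt_fix h x).sub (integrable_nxt_fix h y)
  · filter_upwards with e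
    have := nxt_mono (h := h) (continuous_ext e.2) hxy
    simp only [Pi.zero_apply]
    linarith

/-- quietness -/
def quiet (h : ℝ) (w : ℝ → ℝ) (a b : ℝ) : Prop := ∀ r, a ≤ r → r ≤ b → w r - w (r - 1) < h

lemma measurableSet_quiet (h a b : ℝ) : MeasurableSet {e : Path | quiet h (ext e.1) a b} := by
  rcases le_or_gt a b with hab | hab
  · have : {e : Path | quiet h (ext e.1) a b} = (⋂ n : ℕ, ⋃ q : ℚ,
      ⋃ _ : (0 ≤ (q : ℝ) ∧ (q : ℝ) ≤ 1),
          {e : Path | h - 1 / (n + 1) < ext e.1 (a + q * (b - a))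
            - ext e.1 (a + q * (b - a) - 1)})ᶜ := by
      ext e
      have hc := continuous_ext e.2
      rw [Set.mem_compl_iff]
      simp only [Set.mem_iInter, Set.mem_iUnion, exists_prop, Set.mem_ofPred_eq]
      rw [← exists_le_iff_countable (v := fun t => ext e.1 t - ext e.1 (t - 1))
        (by fun_prop) hab]
      unfold quiet
      push Not
      exact Iff.rfl
    rw [this]
    refine MeasurableSet.compl (MeasurableSet.iInter fun n => MeasurableSet.iUnion fun q =>
      MeasurableSet.iUnion fun _ => ?_)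
    exact measurableSet_lt measurable_const
      ((measurable_eval_path _).sub (measurable_eval_path _))
  · have : {e : Path | quiet h (ext e.1) a b} = Set.univ := by
      ext e
      simp only [Set.mem_ofPred_eq, Set.mem_univ, iff_true]
      intro r h1 h2
      linarith
    rw [this]; exact MeasurableSet.univ

lemma quiet_shp (h : ℝ) (y : ℝ≥0) :
    Wi {e : Path | quiet h (ext e.1) (y + 1) (y + 3)} = Wi {e : Path | quiet h (ext e.1) 1 3} := by
  conv_rhs => rw [← shp_law y]
  rw [Measure.map_apply (measurable_shp y) (measurableSet_quiet h 1 3)]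
  congr 1
  ext e
  simp only [Set.mem_ofPred_eq, Set.mem_preimage, quiet]
  constructor
  · intro H r h1 h2
    rw [ext_shp y e (by linarith), ext_shp y e (by linarith)]
    have := H (y + r) (by linarith) (by linarith)
    have e1 : (y : ℝ) + r - 1 = y + (r - 1) := by ring
    rw [e1] at this
    linarith
  · intro H r h1 h2
    have := H (r - y) (by linarith) (by linarith)
    rw [ext_shp y e (by linarith), ext_shp y e (by linarith)] at this
    have e1 : (y : ℝ) + (r - y) = r := by ring
    have e2 : (y : ℝ) + (r - y - 1) = r - 1 := by ring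
    rw [e1, e2] at this
    linarith

/-- the Gaussian tail -/
noncomputable def gt (h : ℝ) : ℝ≥0∞ := gaussianReal 0 1 (Set.Ici h)

lemma gt_pos (h : ℝ) : 0 < gt h := by
  unfold gt
  have h1 : (volume : Measure ℝ) ≪ gaussianReal 0 1 :=
    gaussianReal_absolutelyContinuous' 0 (by norm_num)
  by_contra hcon
  have h2 : gaussianReal 0 1 (Set.Ici h) = 0 := by
    simpa using hcon
  have h3 := h1 h2
  simp at h3

/-- Lower bound for the contraction event. -/
lemma two_point_prob (h : ℝ) {x y : ℝ} (hy : 0 ≤ y) (hxy : y ≤ x) :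
    Wi {e : Path | quiet h (ext e.1) 1 3} * gt h
      ≤ Wi {e : Path | nxt h (ext e.1) x - nxt h (ext e.1) y ≤ max (x - y - 1) 0} := by
  have hx : 0 ≤ x := hy.trans hxy
  lift x to ℝ≥0 using hx
  lift y to ℝ≥0 using hy
  set r : ℝ≥0 := x + 1 with hr
  have hr' : (r : ℝ) = x + 1 := by simp [hr]
  set Z : ℝ≥0 → Path → ℝ := fun t e => e.1 t with hZ
  have hind := indep_past_fut Wi_isPreBrownian (fun e => e.2) r
  set A1 : Set Path := {e | quiet h (ext e.1) (y + 1) (min (x:ℝ) (y + 2) + 1)} with hA1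
  set A2 : Set Path := {e | h ≤ ext e.1 (x + 2) - ext e.1 (x + 1)} with hA2
  have hm1 : MeasurableSet[past Z (fun e => e.2) r] A1 := by
    refine ⟨A1, measurableSet_quiet h _ _, ?_⟩
    ext e
    simp only [hA1, Set.mem_preimage, Set.mem_ofPred_eq, quiet]
    have key : ∀ t : ℝ, 0 ≤ t → t ≤ x + 1 →
        ext (pathMap (pst Z r) (pst_cont (fun e => e.2) r) e).1 t = ext e.1 t := by
      intro t ht0 ht1
      lift t to ℝ≥0 using ht0
      rw [ext_coe, ext_coe]
      simp only [pathMap, pst, hZ]
      rw [min_eq_left]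
      rw [← NNReal.coe_le_coe, hr']; exact ht1
    have hmin := min_le_left (x:ℝ) (y + 2)
    have hy0 : (0:ℝ) ≤ y := y.2
    constructor
    · intro H s h1 h2
      have := H s h1 h2
      rwa [key s (by linarith) (by linarith), key (s - 1) (by linarith) (by linarith)] at this
    · intro H s h1 h2
      rw [key s (by linarith) (by linarith), key (s - 1) (by linarith) (by linarith)]
      exact H s h1 h2
  have e2 : ∀ e : Path, ext e.1 (x + 2) = e.1 (x + 2) := fun e => by
    have : (x : ℝ) + 2 = ((x + 2 : ℝ≥0) : ℝ) := by push_cast; ring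
    rw [this, ext_coe]
  have e1 : ∀ e : Path, ext e.1 (x + 1) = e.1 (x + 1) := fun e => by
    have : (x : ℝ) + 1 = ((x + 1 : ℝ≥0) : ℝ) := by push_cast; ring
    rw [this, ext_coe]
  have hm2 : MeasurableSet[MeasurableSpace.comap
      (pathMap (fut Z r) (fut_cont (fun e => e.2) r)) inferInstance] A2 := by
    refine ⟨{e | h ≤ e.1 1}, measurableSet_le measurable_const (measurable_eval_path 1), ?_⟩
    ext e
    simp only [hA2, Set.mem_preimage, Set.mem_ofPred_eq, pathMap, fut, hZ, e1, e2]
    have e3 : r + 1 = x + 2 := by rw [hr, add_assoc]; norm_num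
    rw [e3]
  have hprod : Wi (A1 ∩ A2) = Wi A1 * Wi A2 := (Indep_iff _ _ _).1 hind A1 A2 hm1 hm2
  have hA2m : Wi A2 = gt h := by
    have hl := Wi_isPreBrownian.hasLaw_sub (x + 2) (x + 1)
    have hn : nndist ((x + 2 : ℝ≥0) : ℝ) ((x + 1 : ℝ≥0) : ℝ) = 1 := by
      rw [← NNReal.coe_inj, coe_nndist, Real.dist_eq, NNReal.coe_one]
      push_cast
      rw [show (x:ℝ) + 2 - (x + 1) = 1 by ring]; simp
    rw [gt, ← hn]
    have hl' := hl.map_eq
    simp only [NNReal.val_eq_coe] at hl'
    rw [← hl', Measure.map_apply]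
    · congr 1
      ext e
      simp only [hA2, Set.mem_ofPred_eq, Set.mem_preimage, Set.mem_Ici, Pi.sub_apply, e1, e2]
    · exact (measurable_eval_path _).sub (measurable_eval_path _)
    · exact measurableSet_Ici
  have hA1m : Wi {e : Path | quiet h (ext e.1) 1 3} ≤ Wi A1 := by
    rw [← quiet_shp h y]
    apply measure_mono
    intro e he r h1 h2
    have := min_le_right (x:ℝ) (y + 2)
    exact he r h1 (by linarith)
  calc _ ≤ Wi A1 * Wi A2 := by rw [hA2m]; gcongr
    _ = Wi (A1 ∩ A2) := hprod.symm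
    _ ≤ _ := by
      apply measure_mono
      rintro e ⟨h1, h2⟩
      exact nxt_sub_nxt_le (continuous_ext e.2) h1 h2

end Pool.Agent.Lib.MP_d1eed2_pr
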