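import Mathlib
import Pool.Agent.Lib.MP_d1eed2_pr.TwoPoint

open MeasureTheory ProbabilityTheory Filter Topology
open scoped NNReal ENNReal

namespace Pool.Agent.Lib.MP_d1eed2_pr

lemma lintegral_freeze {Ω S T : Type*} {mΩ : MeasurableSpace Ω} {mS : MeasurableSpace S}
    {mT : MeasurableSpace T} {P : Measure Ω} [IsProbabilityMeasure P] {π : Ω → T} {E : Ω → S}
    (hπ : Measurable π) (hE : Measurable E) (hind : IndepFun π E P) {f : T × S → ℝ≥0∞}
    (hf : Measurable f) :
    ∫⁻ ω, f (π ω, E ω) ∂P = ∫⁻ ω, ∫⁻ e, f (π ω, e) ∂(P.map E) ∂P := by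
  have hmap := (indepFun_iff_map_prod_eq_prod_map_map hπ.aemeasurable hE.aemeasurable).1 hind
  have := Measure.isProbabilityMeasure_map (μ := P) hπ.aemeasurable
  have := Measure.isProbabilityMeasure_map (μ := P) hE.aemeasurable
  calc ∫⁻ ω, f (π ω, E ω) ∂P = ∫⁻ p, f p ∂(P.map fun ω => (π ω, E ω)) := by
        rw [lintegral_map hf (hπ.prodMk hE)]
    _ = ∫⁻ p, f p ∂((P.map π).prod (P.map E)) := by rw [hmap]
    _ = ∫⁻ t, ∫⁻ e, f (t, e) ∂(P.map E) ∂(P.map π) := by
        rw [lintegral_prod _ hf.aemeasurable]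
    _ = _ := by rw [lintegral_map hf.lintegral_prod_right' hπ]

/-- stopping a path -/
def stp (r : ℝ≥0) (e : Path) : Path :=
  pathMap (pst (fun (t : ℝ≥0) (e : Path) => e.1 t) r) (pst_cont (fun e => e.2) r) e

lemma measurable_stp (r : ℝ≥0) : Measurable (stp r) :=
  measurable_pathMap (pst_cont (fun e => e.2) r) (pst_meas measurable_eval_path r)

lemma indep_stp_shp (r : ℝ≥0) : IndepFun (stp r) (shp r) Wi := by
  rw [IndepFun_iff_Indep]
  exact indep_past_fut Wi_isPreBrownian (fun e => e.2) r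

lemma ext_stp (r : ℝ≥0) (e : Path) {t : ℝ} (ht : t ≤ r) : ext (stp r e).1 t = ext e.1 t := by
  unfold ext
  change e.1 (min t.toNNReal r) = e.1 t.toNNReal
  rw [min_eq_left]
  exact Real.toNNReal_le_iff_le_coe.2 ht

lemma stp_stp {r r' : ℝ≥0} (h : r ≤ r') (e : Path) : stp r (stp r' e) = stp r e := by
  apply Subtype.ext
  funext t
  change e.1 (min (min t r) r') = e.1 (min t r)
  rw [min_eq_left ((min_le_right _ _).trans h)]

variable (h : ℝ) (N : ℕ → ℕ) (a0 : ℝ≥0)

/-- walker on a path -/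
noncomputable def wp (a : ℝ) (m : ℕ) (e : Path) : ℝ := wk h (fun m => (N m : ℝ)) (ext e.1) a m

/-- deterministic upper bound of the walkers -/
noncomputable def rb (m : ℕ) : ℝ≥0 := a0 + ∑ i ∈ Finset.range m, ((N i : ℝ≥0) + 3)

lemma measurable_wp (a : ℝ) (m : ℕ) : Measurable (wp h N a m) := by
  induction m with
  | zero => exact measurable_const
  | succ m ih =>
    exact (measurable_nxt h).comp (f := fun e : Path => (wp h N a m e + N m, e)) (by fun_prop)

lemma wp_succ (a : ℝ) (m : ℕ) (e : Path) :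
    wp h N a (m + 1) e = nxt h (ext e.1) (wp h N a m e + N m) := rfl

lemma rb_succ (m : ℕ) : rb N a0 (m + 1) = rb N a0 m + ((N m : ℝ≥0) + 3) := by
  unfold rb; rw [Finset.sum_range_succ, add_assoc]

lemma rb_mono : Monotone (rb N a0) := by
  apply monotone_nat_of_le_succ
  intro m
  rw [rb_succ]
  exact le_self_add

lemma wp_le (a : ℝ) (ha : a ≤ a0) (m : ℕ) (e : Path) : wp h N a m e ≤ rb N a0 m := by
  induction m with
  | zero => simpa [wp, wk, rb] using ha
  | succ m ih =>
    rw [wp_succ, rb_succ]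
    have := nxt_le_add_three (h := h) (w := ext e.1) (s := wp h N a m e + N m)
    push_cast
    linarith

lemma le_wp (m : ℕ) (e : Path) (a : ℝ) (ha : 0 ≤ a) :
    ∑ i ∈ Finset.range m, ((N i : ℝ) + 1) ≤ wp h N a m e := by
  induction m with
  | zero => simpa [wp, wk] using ha
  | succ m ih =>
    rw [wp_succ, Finset.sum_range_succ]
    have := add_one_le_nxt (h := h) (w := ext e.1) (s := wp h N a m e + N m)
    linarith

lemma wp_mono {a b : ℝ} (hab : b ≤ a) (m : ℕ) (e : Path) : wp h N b m e ≤ wp h N a m e := by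
  induction m with
  | zero => simpa [wp, wk] using hab
  | succ m ih =>
    rw [wp_succ, wp_succ]
    exact nxt_mono (continuous_ext e.2) (by linarith)

lemma wp_stp (a : ℝ) (ha : a ≤ a0) (m : ℕ) (e : Path) {r : ℝ≥0} (hr : rb N a0 m ≤ r) :
    wp h N a m (stp r e) = wp h N a m e := by
  induction m with
  | zero => rfl
  | succ m ih =>
    have hr' : rb N a0 m ≤ r := (rb_mono N a0 (Nat.le_succ m)).trans hr
    rw [wp_succ, wp_succ, ih hr']
    refine nxt_congr (c := 0) (continuous_ext e.2) (continuous_ext (stp r e).2) ?_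
    intro t _ ht
    rw [add_zero]
    apply ext_stp
    have h1 := wp_le h N a0 a ha (m + 1) e
    rw [wp_succ] at h1
    have h2 : ((rb N a0 (m + 1) : ℝ≥0) : ℝ) ≤ r := by exact_mod_cast hr
    linarith

/-- difference of the two walkers -/
noncomputable def dd (m : ℕ) (e : Path) : ℝ := wp h N a0 m e - wp h N 0 m e

lemma measurable_dd (m : ℕ) : Measurable (dd h N a0 m) :=
  (measurable_wp h N _ m).sub (measurable_wp h N _ m)

lemma dd_nonneg (m : ℕ) (e : Path) : 0 ≤ dd h N a0 m e :=
  sub_nonneg.2 (wp_mono h N a0.2 m e)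

lemma dd_stp (m : ℕ) (e : Path) {r : ℝ≥0} (hr : rb N a0 m ≤ r) :
    dd h N a0 m (stp r e) = dd h N a0 m e := by
  unfold dd
  rw [wp_stp h N a0 _ (le_refl _) m e hr, wp_stp h N a0 0 a0.2 m e hr]

lemma dd_zero_of_zero (m : ℕ) (e : Path) (h0 : dd h N a0 m e = 0) : dd h N a0 (m + 1) e = 0 := by
  unfold dd at *
  rw [wp_succ, wp_succ, sub_eq_zero.1 h0, sub_self]

/-- position of the walkers relative to the bound -/
lemma rel_pos (a : ℝ) (ha0 : 0 ≤ a) (m : ℕ) (hN : (a0 : ℝ) + 2 * m ≤ N m) (e : Path) :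
    0 ≤ wp h N a m e + N m - rb N a0 m := by
  have h1 := le_wp h N m e a ha0
  have h2 : ((rb N a0 m : ℝ≥0) : ℝ) = a0 + ∑ i ∈ Finset.range m, ((N i : ℝ) + 1) + 2 * m := by
    unfold rb
    push_cast
    rw [add_assoc]
    congr 1
    have : (2 : ℝ) * m = ∑ i ∈ Finset.range m, (2 : ℝ) := by simp [mul_comm]
    rw [this, ← Finset.sum_add_distrib]
    refine Finset.sum_congr rfl fun i _ => by ring
  rw [h2]
  linarith

lemma wp_succ_shp (a : ℝ) (ha : a ≤ a0) (ha0 : 0 ≤ a) (m : ℕ) (hN : (a0 : ℝ) + 2 * m ≤ N m)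
    (e : Path) :
    wp h N a (m + 1) e = nxt h (ext (shp (rb N a0 m) e).1)
      (wp h N a m (stp (rb N a0 m) e) + N m - rb N a0 m) + rb N a0 m := by
  have h0 := rel_pos h N a0 a ha0 m hN e
  rw [wp_stp h N a0 a ha m e (le_refl _),
    nxt_fut e.2 (shp (rb N a0 m) e).2 (rb N a0 m) (e.1 (rb N a0 m)) (fun t => rfl) h0 h,
    wp_succ]
  have : ((rb N a0 m : ℝ≥0) : ℝ) + (wp h N a m e + N m - rb N a0 m) = wp h N a m e + N m := by ring
  rw [this]
  ring

/-- the pair functional -/
noncomputable def pf (m : ℕ) (p : Path × Path) : ℝ :=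
  nxt h (ext p.2.1) (wp h N a0 m p.1 + N m - rb N a0 m)
    - nxt h (ext p.2.1) (wp h N 0 m p.1 + N m - rb N a0 m)

lemma measurable_pf (m : ℕ) : Measurable (pf h N a0 m) := by
  unfold pf
  have h1 := measurable_wp h N a0 m
  have h2 := measurable_wp h N 0 m
  exact ((measurable_nxt h).comp (f := fun p : Path × Path =>
      (wp h N a0 m p.1 + N m - rb N a0 m, p.2)) (by fun_prop)).sub
    ((measurable_nxt h).comp (f := fun p : Path × Path =>
      (wp h N 0 m p.1 + N m - rb N a0 m, p.2)) (by fun_prop))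

lemma dd_succ (m : ℕ) (hN : (a0 : ℝ) + 2 * m ≤ N m) (e : Path) :
    dd h N a0 (m + 1) e = pf h N a0 m (stp (rb N a0 m) e, shp (rb N a0 m) e) := by
  unfold dd pf
  rw [wp_succ_shp h N a0 a0 (le_refl _) a0.2 m hN e, wp_succ_shp h N a0 0 a0.2 (le_refl _) m hN e]
  ring

lemma lintegral_dd_succ (m : ℕ) (hN : (a0 : ℝ) + 2 * m ≤ N m) :
    ∫⁻ e, ENNReal.ofReal (dd h N a0 (m + 1) e) ∂Wi = ∫⁻ e, ENNReal.ofReal (dd h N a0 m e) ∂Wi := by
  simp_rw [dd_succ h N a0 m hN]
  rw [lintegral_freeze (f := fun p => ENNReal.ofReal (pf h N a0 m p)) (measurable_stp _)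
    (measurable_shp _) (indep_stp_shp _) (measurable_pf h N a0 m).ennreal_ofReal, shp_law]
  refine lintegral_congr fun e => ?_
  unfold pf
  dsimp only
  rw [lintegral_two_point h (rel_pos h N a0 0 (le_refl _) m hN _)
    (by have := wp_mono h N (a := a0) (b := 0) a0.2 m (stp (rb N a0 m) e); linarith)]
  congr 1
  rw [← dd_stp h N a0 m e (le_refl _)]
  unfold dd
  ring

/-- The contraction event. -/
def gv (m : ℕ) : Set Path := {e | dd h N a0 (m + 1) e ≤ max (dd h N a0 m e - 1) 0}

lemma measurableSet_gv (m : ℕ) : MeasurableSet (gv h N a0 m) :=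
  measurableSet_le (measurable_dd h N a0 _) (((measurable_dd h N a0 m).sub_const 1).max
    measurable_const)

/-- Conditional lower bound for the contraction event. -/
lemma gv_prob (m : ℕ) (hN : (a0 : ℝ) + 2 * m ≤ N m) {B : Set Path} (hB : MeasurableSet B) :
    (Wi {e : Path | quiet h (ext e.1) 1 3} * gt h) * Wi (stp (rb N a0 m) ⁻¹' B)
      ≤ Wi (stp (rb N a0 m) ⁻¹' B ∩ gv h N a0 m) := by
  set p := Wi {e : Path | quiet h (ext e.1) 1 3} * gt h with hp
  set C : Set (Path × Path) := {q | q.1 ∈ B ∧ pf h N a0 m q ≤ max (dd h N a0 m q.1 - 1) 0} with hC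
  have hCm : MeasurableSet C := (measurable_fst hB).inter
    (measurableSet_le (measurable_pf h N a0 m)
      ((((measurable_dd h N a0 m).comp measurable_fst).sub_const 1).max measurable_const))
  have h1 : Wi (stp (rb N a0 m) ⁻¹' B ∩ gv h N a0 m)
      = ∫⁻ e, C.indicator 1 (stp (rb N a0 m) e, shp (rb N a0 m) e) ∂Wi := by
    rw [← lintegral_indicator_one
      ((measurable_stp _ hB).inter (measurableSet_gv h N a0 m))]
    refine lintegral_congr fun e => ?_
    have : e ∈ stp (rb N a0 m) ⁻¹' B ∩ gv h N a0 m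
        ↔ (stp (rb N a0 m) e, shp (rb N a0 m) e) ∈ C := by
      simp only [Set.mem_inter_iff, Set.mem_preimage, gv, hC, Set.mem_ofPred_eq]
      rw [dd_succ h N a0 m hN, dd_stp h N a0 m e (le_refl _)]
    by_cases hmem : e ∈ stp (rb N a0 m) ⁻¹' B ∩ gv h N a0 m
    · rw [Set.indicator_of_mem hmem, Set.indicator_of_mem (this.1 hmem)]
      rfl
    · rw [Set.indicator_of_notMem hmem, Set.indicator_of_notMem (fun hh => hmem (this.2 hh))]
  rw [h1, lintegral_freeze (f := C.indicator 1) (measurable_stp _)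
    (measurable_shp _) (indep_stp_shp _) ((measurable_one.indicator hCm)), shp_law]
  calc p * Wi (stp (rb N a0 m) ⁻¹' B)
      = ∫⁻ e, (stp (rb N a0 m) ⁻¹' B).indicator (fun _ => p) e ∂Wi := by
        rw [lintegral_indicator_const (measurable_stp _ hB)]
    _ ≤ _ := by
        refine lintegral_mono fun e => ?_
        by_cases he : e ∈ stp (rb N a0 m) ⁻¹' B
        · rw [Set.indicator_of_mem he]
          have h2 : ∀ e', C.indicator (1 : Path × Path → ℝ≥0∞) (stp (rb N a0 m) e, e')
              = {e' : Path | pf h N a0 m (stp (rb N a0 m) e, e')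
                ≤ max (dd h N a0 m (stp (rb N a0 m) e) - 1) 0}.indicator 1 e' := by
            intro e'
            by_cases hc : pf h N a0 m (stp (rb N a0 m) e, e')
                ≤ max (dd h N a0 m (stp (rb N a0 m) e) - 1) 0
            · rw [Set.indicator_of_mem (show (stp (rb N a0 m) e, e') ∈ C from ⟨he, hc⟩),
                Set.indicator_of_mem (show e' ∈ {e' : Path | pf h N a0 m (stp (rb N a0 m) e, e')
                ≤ max (dd h N a0 m (stp (rb N a0 m) e) - 1) 0} from hc)]
              rfl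
            · rw [Set.indicator_of_notMem (fun hh => hc hh.2), Set.indicator_of_notMem
                (s := {e' : Path | pf h N a0 m (stp (rb N a0 m) e, e')
                ≤ max (dd h N a0 m (stp (rb N a0 m) e) - 1) 0}) (fun hh => hc hh)]
          simp_rw [h2]
          rw [lintegral_indicator_one]
          · have hpos := rel_pos h N a0 0 (le_refl _) m hN (stp (rb N a0 m) e)
            have hle : wp h N 0 m (stp (rb N a0 m) e) + N m - rb N a0 m
                ≤ wp h N a0 m (stp (rb N a0 m) e) + N m - rb N a0 m := by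
              have := wp_mono h N (a := a0) (b := 0) a0.2 m (stp (rb N a0 m) e)
              linarith
            have := two_point_prob h hpos hle
            refine this.trans (measure_mono ?_)
            intro e' he'
            simp only [Set.mem_ofPred_eq] at he' ⊢
            unfold pf dd
            refine he'.trans (le_of_eq ?_)
            congr 1
            ring
          · exact measurableSet_le
              ((measurable_pf h N a0 m).comp (f := fun e' : Path => (stp (rb N a0 m) e, e'))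
                (by fun_prop)) measurable_const
        · rw [Set.indicator_of_notMem he]
          exact zero_le

/-- success probability -/
noncomputable def pr (h : ℝ) : ℝ≥0∞ := Wi {e : Path | quiet h (ext e.1) 1 3} * gt h

/-- `j` consecutive contractions. -/
lemma absorb (j : ℕ) : ∀ (m : ℕ), (∀ i, m ≤ i → (a0 : ℝ) + 2 * i ≤ N i) →
    ∀ B : Set Path, MeasurableSet B → (∀ e ∈ stp (rb N a0 m) ⁻¹' B, dd h N a0 m e ≤ j) →
    pr h ^ j * Wi (stp (rb N a0 m) ⁻¹' B)
      ≤ Wi (stp (rb N a0 m) ⁻¹' B ∩ {e | dd h N a0 (m + j) e = 0}) := by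
  induction j with
  | zero =>
    intro m _ B _ hle
    rw [pow_zero, one_mul]
    apply measure_mono
    intro e he
    refine ⟨he, ?_⟩
    have h1 := hle e he
    have h2 := dd_nonneg h N a0 m e
    simp only [Nat.cast_zero] at h1
    exact le_antisymm h1 h2
  | succ j ih =>
    intro m hN B hB hle
    set B' : Set Path := stp (rb N a0 m) ⁻¹' B ∩ gv h N a0 m with hB'
    have hB'm : MeasurableSet B' := (measurable_stp _ hB).inter (measurableSet_gv h N a0 m)
    have hpre : stp (rb N a0 (m + 1)) ⁻¹' B' = B' := by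
      ext e
      simp only [hB', Set.mem_preimage, Set.mem_inter_iff, gv, Set.mem_ofPred_eq]
      rw [stp_stp (rb_mono N a0 (Nat.le_succ m)), dd_stp h N a0 (m + 1) e (le_refl _),
        dd_stp h N a0 m e (rb_mono N a0 (Nat.le_succ m))]
    have h1 := gv_prob h N a0 m (hN m (le_refl _)) hB
    have h2 := ih (m + 1) (fun i hi => hN i (by omega)) B' hB'm (by
      intro e he
      rw [hpre] at he
      have h3 := hle e he.1
      have h4 : dd h N a0 (m + 1) e ≤ max (dd h N a0 m e - 1) 0 := he.2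
      refine h4.trans (max_le ?_ (by positivity))
      push_cast at h3
      linarith)
    rw [hpre] at h2
    calc pr h ^ (j + 1) * Wi (stp (rb N a0 m) ⁻¹' B)
        = pr h ^ j * (pr h * Wi (stp (rb N a0 m) ⁻¹' B)) := by rw [pow_succ, mul_assoc]
      _ ≤ pr h ^ j * Wi B' := by gcongr; exact h1
      _ ≤ Wi (B' ∩ {e | dd h N a0 (m + 1 + j) e = 0}) := h2
      _ ≤ _ := by
        apply measure_mono
        rintro e ⟨he1, he2⟩
        refine ⟨he1.1, ?_⟩
        rw [show m + (j + 1) = m + 1 + j by ring]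
        exact he2

lemma dd_zero_mono {m n : ℕ} (hmn : m ≤ n) {e : Path} (h0 : dd h N a0 m e = 0) :
    dd h N a0 n e = 0 := by
  induction n, hmn using Nat.le_induction with
  | base => exact h0
  | succ n _ ih => exact dd_zero_of_zero h N a0 n e ih

/-- One round: if the walkers have positive distance at most `K` they meet soon. -/
lemma round (K m : ℕ) (hN : ∀ i, m ≤ i → (a0 : ℝ) + 2 * i ≤ N i) :
    pr h ^ K * Wi {e | 0 < dd h N a0 m e ∧ dd h N a0 m e ≤ K} + Wi {e | 0 < dd h N a0 (m + K) e}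
      ≤ Wi {e | 0 < dd h N a0 m e} := by
  set B : Set Path := {e | 0 < dd h N a0 m e ∧ dd h N a0 m e ≤ K} with hB
  have hBm : MeasurableSet B := (measurableSet_lt measurable_const (measurable_dd h N a0 m)).inter
    (measurableSet_le (measurable_dd h N a0 m) measurable_const)
  have hpre : stp (rb N a0 m) ⁻¹' B = B := by
    ext e
    simp only [hB, Set.mem_preimage, Set.mem_ofPred_eq]
    rw [dd_stp h N a0 m e (le_refl _)]
  have h1 := absorb h N a0 K m hN B hBm (by
    intro e he
    rw [hpre] at he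
    exact he.2)
  rw [hpre] at h1
  calc _ ≤ Wi (B ∩ {e | dd h N a0 (m + K) e = 0}) + Wi {e | 0 < dd h N a0 (m + K) e} := by gcongr
    _ = Wi ((B ∩ {e | dd h N a0 (m + K) e = 0}) ∪ {e | 0 < dd h N a0 (m + K) e}) := by
      rw [measure_union]
      · rw [Set.disjoint_left]
        rintro e ⟨_, he⟩ he'
        simp only [Set.mem_ofPred_eq] at he he'
        linarith
      · exact measurableSet_lt measurable_const (measurable_dd h N a0 _)
    _ ≤ _ := by
      apply measure_mono
      rintro e (⟨he, _⟩ | he)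
      · exact he.1
      · simp only [Set.mem_ofPred_eq] at he ⊢
        rcases (dd_nonneg h N a0 m e).lt_or_eq with h2 | h2
        · exact h2
        · exfalso
          have := dd_zero_mono h N a0 (Nat.le_add_right m K) h2.symm
          linarith

lemma dd_le (m : ℕ) (e : Path) : dd h N a0 m e ≤ rb N a0 m := by
  unfold dd
  have h1 := wp_le h N a0 a0 (le_refl _) m e
  have h2 := le_wp h N m e 0 (le_refl _)
  have h3 : (0:ℝ) ≤ ∑ i ∈ Finset.range m, ((N i : ℝ) + 1) := by positivity
  linarith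

/-- The walkers meet almost surely (canonical space). -/
theorem coal_canonical (hpr : pr h ≠ 0) (hN : ∀ c : ℝ, ∃ m₀, ∀ i, m₀ ≤ i → c + 2 * i ≤ N i) :
    Wi {e | ∀ m, 0 < dd h N a0 m e} = 0 := by
  obtain ⟨m₀, hm₀⟩ := hN a0
  by_contra hcon
  set ε := Wi {e | ∀ m, 0 < dd h N a0 m e} with hε
  have hε0 : 0 < ε := pos_iff_ne_zero.2 hcon
  have hεtop : ε ≠ ⊤ := measure_ne_top _ _
  -- constant mean
  have hmean : ∀ m, m₀ ≤ m → ∫⁻ e, ENNReal.ofReal (dd h N a0 m e) ∂Wi ≤ rb N a0 m₀ := by
    intro m hm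
    induction m, hm using Nat.le_induction with
    | base =>
      calc ∫⁻ e, ENNReal.ofReal (dd h N a0 m₀ e) ∂Wi ≤ ∫⁻ _, (rb N a0 m₀ : ℝ≥0∞) ∂Wi := by
            refine lintegral_mono fun e => ?_
            rw [← ENNReal.ofReal_coe_nnreal]
            exact ENNReal.ofReal_le_ofReal (dd_le h N a0 m₀ e)
        _ = rb N a0 m₀ := by simp
    | succ m hm ih =>
      rw [lintegral_dd_succ h N a0 m (hm₀ m hm)]
      exact ih
  -- choose K
  obtain ⟨K, hKpos, hK⟩ : ∃ K : ℕ, 0 < K ∧ (rb N a0 m₀ : ℝ≥0∞) / K ≤ ε / 2 := by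
    obtain ⟨K, hK⟩ := ENNReal.exists_nat_gt
      (r := (rb N a0 m₀ : ℝ≥0∞) / (ε / 2)) (by
        apply (ENNReal.div_lt_top ENNReal.coe_ne_top ?_).ne
        exact (ENNReal.half_pos hε0.ne').ne')
    refine ⟨K, by
      have := pos_of_gt hK
      exact_mod_cast this, ?_⟩
    have h0 : ε / 2 ≠ 0 := (ENNReal.half_pos hε0.ne').ne'
    have ht : ε / 2 ≠ ⊤ := (ENNReal.div_lt_top hεtop (by norm_num)).ne
    rw [ENNReal.div_lt_iff (Or.inl h0) (Or.inl ht)] at hK
    apply ENNReal.div_le_of_le_mul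
    rw [mul_comm]
    exact hK.le
  -- probability of a small positive distance
  have hsmall : ∀ m, m₀ ≤ m → ε / 2 ≤ Wi {e | 0 < dd h N a0 m e ∧ dd h N a0 m e ≤ K} := by
    intro m hm
    have h1 : ε ≤ Wi {e | 0 < dd h N a0 m e ∧ dd h N a0 m e ≤ K}
        + Wi {e | (K : ℝ≥0∞) ≤ ENNReal.ofReal (dd h N a0 m e)} := by
      refine (measure_mono ?_).trans (measure_union_le _ _)
      intro e he
      rcases le_or_gt (dd h N a0 m e) K with h2 | h2
      · exact Or.inl ⟨he m, h2⟩
      · right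
        simp only [Set.mem_ofPred_eq]
        rw [← ENNReal.ofReal_natCast]
        exact ENNReal.ofReal_le_ofReal h2.le
    have h2 : Wi {e | (K : ℝ≥0∞) ≤ ENNReal.ofReal (dd h N a0 m e)} ≤ ε / 2 := by
      refine (meas_ge_le_lintegral_div (measurable_dd h N a0 m).ennreal_ofReal.aemeasurable
        (by exact_mod_cast hKpos.ne') (ENNReal.natCast_ne_top K)).trans ?_
      exact (ENNReal.div_le_div_right (hmean m hm) _).trans hK
    have h3 : ε / 2 + ε / 2 ≤ Wi {e | 0 < dd h N a0 m e ∧ dd h N a0 m e ≤ K} + ε / 2 := by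
      rw [ENNReal.add_halves]
      exact h1.trans (by gcongr)
    exact (ENNReal.add_le_add_iff_right (ENNReal.div_lt_top hεtop (by norm_num)).ne).1 h3
  set δ := pr h ^ K * (ε / 2) with hδ
  have hδ0 : δ ≠ 0 := by
    rw [hδ]
    exact mul_ne_zero (pow_ne_zero _ hpr) (ENNReal.half_pos hε0.ne').ne'
  have hiter : ∀ i : ℕ, i * δ + Wi {e | 0 < dd h N a0 (m₀ + i * K) e} ≤ 1 := by
    intro i
    induction i with
    | zero => simpa using prob_le_one
    | succ i ih =>
      have h1 := round h N a0 K (m₀ + i * K) (fun j hj => hm₀ j (by omega))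
      have h2 := hsmall (m₀ + i * K) (by omega)
      calc ((i + 1 : ℕ) : ℝ≥0∞) * δ + Wi {e | 0 < dd h N a0 (m₀ + (i + 1) * K) e}
          = i * δ + (pr h ^ K * (ε / 2) + Wi {e | 0 < dd h N a0 (m₀ + i * K + K) e}) := by
            rw [show m₀ + (i + 1) * K = m₀ + i * K + K by ring]
            push_cast
            rw [add_mul, one_mul, add_assoc]
        _ ≤ i * δ + (pr h ^ K * Wi {e | 0 < dd h N a0 (m₀ + i * K) e
              ∧ dd h N a0 (m₀ + i * K) e ≤ K} + Wi {e | 0 < dd h N a0 (m₀ + i * K + K) e}) := by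
            gcongr
        _ ≤ i * δ + Wi {e | 0 < dd h N a0 (m₀ + i * K) e} := by gcongr
        _ ≤ 1 := ih
  obtain ⟨i, hi⟩ := ENNReal.exists_nat_mul_gt hδ0 (b := 1) (by norm_num)
  have := hiter i
  exact absurd (hi.trans_le (le_self_add.trans this)) (lt_irrefl _)

end Pool.Agent.Lib.MP_d1eed2_pr
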