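import Mathlib
import Pool.Agent.Lib.MP_d1eed2_pr.Coal

open MeasureTheory ProbabilityTheory Filter Topology
open scoped NNReal ENNReal

namespace Pool.Agent.Lib.MP_d1eed2_pr

/-- Glue the path `e'` to the path `e` at time `r`. -/
noncomputable def glue (e : Path) (r : ℝ≥0) (e' : Path) : Path :=
  ⟨fun t => e.1 (min t r) + e'.1 (t - r), by
    have h1 := e.2
    have h2 := e'.2
    fun_prop⟩

lemma glue_apply (e : Path) (r : ℝ≥0) (e' : Path) (t : ℝ≥0) :
    (glue e r e').1 t = e.1 (min t r) + e'.1 (t - r) := rfl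

lemma measurable_evalNN : Measurable fun p : ℝ≥0 × Path => p.2.1 p.1 :=
  measurable_uncurry_of_continuous_of_measurable (u := fun (t : ℝ≥0) (e : Path) => e.1 t)
    (fun e => e.2) measurable_eval_path

lemma measurable_glue : Measurable fun p : Path × ℝ≥0 × Path => glue p.1 p.2.1 p.2.2 := by
  refine Measurable.subtype_mk (measurable_pi_lambda _ fun t => ?_)
  refine Measurable.add ?_ ?_
  · exact measurable_evalNN.comp (f := fun p : Path × ℝ≥0 × Path => (min t p.2.1, p.1))
      (by fun_prop)
  · exact measurable_evalNN.comp (f := fun p : Path × ℝ≥0 × Path => (t - p.2.1, p.2.2))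
      (by fun_prop)

lemma glue_stp (r : ℝ≥0) (e e' : Path) : glue (stp r e) r e' = glue e r e' := by
  apply Subtype.ext
  funext t
  rw [glue_apply, glue_apply]
  change e.1 (min (min t r) r) + _ = _
  rw [min_assoc, min_self]

lemma glue_stp_shp (r : ℝ≥0) (e : Path) : glue (stp r e) r (shp r e) = e := by
  rw [glue_stp]
  apply Subtype.ext
  funext t
  rw [glue_apply]
  change e.1 (min t r) + (e.1 (r + (t - r)) - e.1 r) = e.1 t
  rcases le_total t r with h | h
  · rw [min_eq_left h, tsub_eq_zero_of_le h, add_zero]; ring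
  · rw [min_eq_right h, add_tsub_cancel_of_le h]; ring

/-- A stopping rule depends only on the path up to the rule. -/
def IsLocal (τ : Path → ℝ≥0) : Prop :=
  ∀ e e' : Path, (∀ t, t ≤ τ e → e'.1 t = e.1 t) → τ e' = τ e

lemma IsLocal.eq_iff {τ : Path → ℝ≥0} (hτ : IsLocal τ) (r : ℝ≥0) (e : Path) :
    τ (stp r e) = r ↔ τ e = r := by
  constructor
  · intro h
    rw [← h]
    apply hτ (stp r e) e
    intro t ht
    rw [h] at ht
    change e.1 t = e.1 (min t r)
    rw [min_eq_left ht]
  · intro h
    rw [← h]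
    apply hτ e (stp (τ e) e)
    intro t ht
    change e.1 (min t (τ e)) = e.1 t
    rw [min_eq_left ht]

lemma IsLocal.le_iff {τ : Path → ℝ≥0} (hτ : IsLocal τ) (r : ℝ≥0) (e : Path) :
    τ (stp r e) ≤ r ↔ τ e ≤ r := by
  constructor
  · intro h
    have := hτ (stp r e) e (by
      intro t ht
      change e.1 t = e.1 (min t r)
      rw [min_eq_left (ht.trans h)])
    rw [this]; exact h
  · intro h
    have := hτ e (stp r e) (by
      intro t ht
      change e.1 (min t r) = e.1 t
      rw [min_eq_left (ht.trans h)])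
    rw [this]; exact h

lemma map_stp_prod (r : ℝ≥0) :
    Wi.map (fun e => (stp r e, shp r e)) = (Wi.map (stp r)).prod Wi := by
  have := (indepFun_iff_map_prod_eq_prod_map_map (measurable_stp r).aemeasurable
    (measurable_shp r).aemeasurable).1 (indep_stp_shp r)
  rw [this, shp_law]

/-- gluing at a stopping rule with countably many values -/
lemma glue_countable {τ : Path → ℝ≥0} (hτ : IsLocal τ) (hm : Measurable τ) (c : ℕ → ℝ≥0)
    (hc : Function.Injective c) (hr : ∀ e, ∃ n, τ e = c n) :
    (Wi.prod Wi).map (fun p => glue p.1 (τ p.1) p.2) = Wi := by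
  have hmg : Measurable fun p : Path × Path => glue p.1 (τ p.1) p.2 :=
    measurable_glue.comp (f := fun p : Path × Path => (p.1, τ p.1, p.2)) (by fun_prop)
  ext A hA
  rw [Measure.map_apply hmg hA]
  have h1 : (fun p : Path × Path => glue p.1 (τ p.1) p.2) ⁻¹' A
      = ⋃ n, {p : Path × Path | τ p.1 = c n ∧ glue p.1 (c n) p.2 ∈ A} := by
    ext p
    simp only [Set.mem_preimage, Set.mem_iUnion, Set.mem_ofPred_eq]
    constructor
    · intro h
      obtain ⟨n, hn⟩ := hr p.1
      exact ⟨n, hn, by rw [← hn]; exact h⟩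
    · rintro ⟨n, hn, h⟩
      rw [hn]; exact h
  have h2 : A = ⋃ n, {e : Path | τ e = c n ∧ e ∈ A} := by
    ext e
    simp only [Set.mem_iUnion, Set.mem_ofPred_eq]
    constructor
    · intro h
      obtain ⟨n, hn⟩ := hr e
      exact ⟨n, hn, h⟩
    · rintro ⟨n, hn, h⟩
      exact h
  have hD : ∀ n, MeasurableSet {p : Path × Path | τ p.1 = c n ∧ glue p.1 (c n) p.2 ∈ A} := by
    intro n
    refine MeasurableSet.inter ?_ ?_
    · exact (hm.comp measurable_fst) (measurableSet_singleton (c n))
    · exact (measurable_glue.comp (f := fun p : Path × Path => (p.1, c n, p.2)) (by fun_prop)) hA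
  have hD' : ∀ n, MeasurableSet {e : Path | τ e = c n ∧ e ∈ A} := by
    intro n
    exact (hm (measurableSet_singleton (c n))).inter hA
  rw [h1, measure_iUnion _ hD]
  · conv_rhs => rw [h2]
    rw [measure_iUnion _ hD']
    · refine tsum_congr fun n => ?_
      have h3 : {p : Path × Path | τ p.1 = c n ∧ glue p.1 (c n) p.2 ∈ A}
          = Prod.map (stp (c n)) id ⁻¹' {p : Path × Path | τ p.1 = c n ∧ glue p.1 (c n) p.2 ∈ A} := by
        ext p
        simp only [Set.mem_preimage, Set.mem_ofPred_eq, Prod.map_fst, Prod.map_snd, id]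
        rw [hτ.eq_iff, glue_stp]
      have h4 : {e : Path | τ e = c n ∧ e ∈ A} = (fun e => (stp (c n) e, shp (c n) e)) ⁻¹'
          {p : Path × Path | τ p.1 = c n ∧ glue p.1 (c n) p.2 ∈ A} := by
        ext e
        simp only [Set.mem_preimage, Set.mem_ofPred_eq]
        rw [hτ.eq_iff, glue_stp_shp]
      have h5 : (Wi.prod Wi).map (Prod.map (stp (c n)) id) = (Wi.map (stp (c n))).prod Wi := by
        rw [← Measure.map_prod_map _ _ (measurable_stp (c n)) measurable_id, Measure.map_id]
      rw [h3, h4, ← Measure.map_apply ((measurable_stp _).prodMap measurable_id) (hD n), h5,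
        ← map_stp_prod, Measure.map_apply ((measurable_stp _).prodMk (measurable_shp _)) (hD n)]
    · intro i j hij
      rw [Function.onFun, Set.disjoint_left]
      rintro e ⟨h1, _⟩ ⟨h2, _⟩
      exact hij (hc (h1.symm.trans h2))
  · intro i j hij
    rw [Function.onFun, Set.disjoint_left]
    rintro e ⟨h1, _⟩ ⟨h2, _⟩
    exact hij (hc (h1.symm.trans h2))

/-- dyadic discretisation of a stopping rule -/
noncomputable def dyad (τ : Path → ℝ≥0) (k : ℕ) (e : Path) : ℝ≥0 :=
  ((⌊(2:ℝ≥0) ^ k * τ e⌋₊ + 1 : ℕ) : ℝ≥0) / 2 ^ k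

lemma le_dyad (τ : Path → ℝ≥0) (k : ℕ) (e : Path) : τ e ≤ dyad τ k e := by
  unfold dyad
  rw [le_div_iff₀ (by positivity), mul_comm]
  have := Nat.lt_floor_add_one ((2:ℝ≥0) ^ k * τ e)
  push_cast
  exact this.le

lemma dyad_le (τ : Path → ℝ≥0) (k : ℕ) (e : Path) : dyad τ k e ≤ τ e + 1 / 2 ^ k := by
  unfold dyad
  rw [div_le_iff₀ (by positivity), add_mul, div_mul_cancel₀ _ (by positivity)]
  push_cast
  gcongr
  rw [mul_comm]
  exact Nat.floor_le (by positivity)

lemma tendsto_dyad (τ : Path → ℝ≥0) (e : Path) :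
    Tendsto (fun k => dyad τ k e) atTop (𝓝 (τ e)) := by
  refine tendsto_of_tendsto_of_tendsto_of_le_of_le tendsto_const_nhds (h := fun k => τ e + 1 / 2 ^ k)
    ?_ (fun k => le_dyad τ k e) (fun k => dyad_le τ k e)
  have : Tendsto (fun k : ℕ => (1 : ℝ≥0) / 2 ^ k) atTop (𝓝 0) := by
    have h := NNReal.tendsto_pow_atTop_nhds_zero_of_lt_one (r := (1/2 : ℝ≥0)) (by
      rw [← NNReal.coe_lt_coe]; norm_num)
    simpa [div_pow] using h
  simpa using (tendsto_const_nhds (x := τ e)).add this

lemma measurable_dyad {τ : Path → ℝ≥0} (hm : Measurable τ) (k : ℕ) : Measurable (dyad τ k) := by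
  unfold dyad
  have h1 : Measurable fun e => (2:ℝ≥0) ^ k * τ e := by fun_prop
  have h2 : Measurable fun e => ⌊(2:ℝ≥0) ^ k * τ e⌋₊ := Nat.measurable_floor.comp h1
  have h3 : Measurable fun n : ℕ => ((n + 1 : ℕ) : ℝ≥0) / 2 ^ k := measurable_from_top
  exact h3.comp h2

lemma isLocal_dyad {τ : Path → ℝ≥0} (hτ : IsLocal τ) (k : ℕ) : IsLocal (dyad τ k) := by
  intro e e' h
  have : τ e' = τ e := hτ e e' fun t ht => h t (ht.trans (le_dyad τ k e))
  unfold dyad
  rw [this]

/-- **Strong Markov property**: gluing at a stopping rule preserves Wiener measure. -/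
theorem glue_law {τ : Path → ℝ≥0} (hτ : IsLocal τ) (hm : Measurable τ) :
    (Wi.prod Wi).map (fun p => glue p.1 (τ p.1) p.2) = Wi := by
  have hpre : ∀ k, IsPreBrownianReal (fun (t : ℝ≥0) (p : Path × Path) =>
      (glue p.1 (dyad τ k p.1) p.2).1 t) (Wi.prod Wi) := by
    intro k
    have hlaw := glue_countable (isLocal_dyad hτ k) (measurable_dyad hm k)
      (fun n => ((n + 1 : ℕ) : ℝ≥0) / 2 ^ k) (by
        intro a b hab
        have h2 : (2:ℝ≥0) ^ k ≠ 0 := by positivity
        have := (div_left_inj' h2).1 hab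
        have := Nat.cast_injective this
        omega) (fun e => ⟨_, rfl⟩)
    refine ⟨fun I => ?_⟩
    have hmg : Measurable fun p : Path × Path => glue p.1 (dyad τ k p.1) p.2 :=
      measurable_glue.comp (f := fun p : Path × Path => (p.1, dyad τ k p.1, p.2))
        (by have := measurable_dyad hm k; fun_prop)
    have hmI : Measurable (fun e : Path => I.restrict (fun t => e.1 t)) :=
      (Finset.measurable_restrict I).comp measurable_subtype_coe
    refine ⟨(hmI.comp hmg).aemeasurable, ?_⟩
    rw [← (Wi_isPreBrownian.hasLaw I).map_eq]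
    conv_rhs => rw [← hlaw]
    rw [Measure.map_map hmI hmg]
    rfl
  have hlim : IsPreBrownianReal (fun (t : ℝ≥0) (p : Path × Path) =>
      (glue p.1 (τ p.1) p.2).1 t) (Wi.prod Wi) := by
    refine isPreBrownianReal_of_tendsto (fun k => (hpre k).isGaussianProcess)
      (fun k t => (hpre k).integral_eval t) (fun s t => ?_) (fun t => ?_) (fun t => ?_)
    · have : ∀ k, cov[fun p : Path × Path => (glue p.1 (dyad τ k p.1) p.2).1 s,
          fun p : Path × Path => (glue p.1 (dyad τ k p.1) p.2).1 t; Wi.prod Wi]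
          = ((min s t : ℝ≥0) : ℝ) := fun k => (hpre k).covariance_eval s t
      exact tendsto_const_nhds.congr fun k => (this k).symm
    · have hmg : Measurable fun p : Path × Path => glue p.1 (τ p.1) p.2 :=
        measurable_glue.comp (f := fun p : Path × Path => (p.1, τ p.1, p.2)) (by fun_prop)
      exact ((measurable_eval_path t).comp hmg).aemeasurable
    · refine Eventually.of_forall fun p => ?_
      have hd := tendsto_dyad τ p.1
      have hcont : Continuous fun r : ℝ≥0 => (glue p.1 r p.2).1 t := by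
        have h1 := p.1.2
        have h2 := p.2.2
        simp only [glue_apply]
        fun_prop
      exact (hcont.tendsto _).comp hd
  have := map_pathMap hlim (fun p => (glue p.1 (τ p.1) p.2).2) (by
    intro t
    have hmg : Measurable fun p : Path × Path => glue p.1 (τ p.1) p.2 :=
      measurable_glue.comp (f := fun p : Path × Path => (p.1, τ p.1, p.2)) (by fun_prop)
    exact (measurable_eval_path t).comp hmg)
  exact this

end Pool.Agent.Lib.MP_d1eed2_pr
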