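import Mathlib
import Pool.Agent.Lib.MP_d1eed2_pr.Glue

open MeasureTheory ProbabilityTheory Filter Topology
open scoped NNReal ENNReal

namespace Pool.Agent.Lib.MP_d1eed2_pr

variable {Ω : Type*} {mΩ : MeasurableSpace Ω} {P : Measure Ω}

/-- The glued paths: `j` pieces starting with number `k`, followed by the whole path number
`k + j`. -/
noncomputable def chain (τ : ℤ → Path → ℝ≥0) (E : ℤ → Ω → Path) : ℕ → ℤ → Ω → Path
  | 0, k => E k
  | j + 1, k => fun ω => glue (E k ω) (τ k (E k ω)) (chain τ E j (k + 1) ω)

variable {τ : ℤ → Path → ℝ≥0} {E : ℤ → Ω → Path}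

lemma measurable_chain (hτm : ∀ k, Measurable (τ k)) (j : ℕ) : ∀ k,
    Measurable[⨆ i ∈ Set.Ici k, MeasurableSpace.comap (E i) inferInstance] (chain τ E j k) := by
  induction j with
  | zero =>
    intro k
    refine Measurable.mono (comap_measurable (E k)) ?_ le_rfl
    exact le_iSup₂ (f := fun i (_ : i ∈ Set.Ici k) =>
      MeasurableSpace.comap (E i) inferInstance) k Set.self_mem_Ici
  | succ j ih =>
    intro k
    have h1 : Measurable[⨆ i ∈ Set.Ici k, MeasurableSpace.comap (E i) inferInstance] (E k) := by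
      refine Measurable.mono (comap_measurable (E k)) ?_ le_rfl
      exact le_iSup₂ (f := fun i (_ : i ∈ Set.Ici k) =>
        MeasurableSpace.comap (E i) inferInstance) k Set.self_mem_Ici
    have h2 : Measurable[⨆ i ∈ Set.Ici k, MeasurableSpace.comap (E i) inferInstance]
        (chain τ E j (k + 1)) := by
      refine Measurable.mono (ih (k + 1)) ?_ le_rfl
      exact biSup_mono (fun i hi => (le_trans (by omega) (Set.mem_Ici.1 hi) : k ≤ i))
    exact measurable_glue.comp (h1.prodMk (((hτm k).comp h1).prodMk h2))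

lemma chain_indep (hE : ∀ k, Measurable (E k)) (hind : iIndepFun E P)
    (hτm : ∀ k, Measurable (τ k)) (j : ℕ) (k : ℤ) :
    IndepFun (E k) (chain τ E j (k + 1)) P := by
  have h1 := indep_iSup_of_disjoint (m := fun i => MeasurableSpace.comap (E i) inferInstance)
    (fun i => (hE i).comap_le) hind (S := {k}) (T := Set.Ici (k + 1)) (by
      rw [Set.disjoint_left]
      intro i hi hi'
      rw [Set.mem_singleton_iff] at hi
      rw [Set.mem_Ici] at hi'
      omega)
  rw [IndepFun_iff_Indep]
  refine indep_of_indep_of_le_left (indep_of_indep_of_le_right h1 ?_) ?_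
  · exact (measurable_chain hτm j (k + 1)).comap_le
  · exact le_iSup₂ (f := fun i (_ : i ∈ ({k} : Set ℤ)) =>
      MeasurableSpace.comap (E i) inferInstance) k (Set.mem_singleton k)

lemma measurable_chain' (hE : ∀ k, Measurable (E k)) (hτm : ∀ k, Measurable (τ k)) (j : ℕ)
    (k : ℤ) : Measurable (chain τ E j k) :=
  (measurable_chain hτm j k).mono (iSup₂_le fun i _ => (hE i).comap_le) le_rfl

theorem chain_law [IsProbabilityMeasure P] (hE : ∀ k, Measurable (E k)) (hind : iIndepFun E P)
    (hlaw : ∀ k, P.map (E k) = Wi) (hτm : ∀ k, Measurable (τ k)) (hτ : ∀ k, IsLocal (τ k))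
    (j : ℕ) : ∀ k, P.map (chain τ E j k) = Wi := by
  induction j with
  | zero => exact hlaw
  | succ j ih =>
    intro k
    have h1 := chain_indep hE hind hτm j k
    have h2 := (indepFun_iff_map_prod_eq_prod_map_map (hE k).aemeasurable
      (measurable_chain' hE hτm j (k + 1)).aemeasurable).1 h1
    rw [hlaw k, ih (k + 1)] at h2
    have h3 := glue_law (hτ k) (hτm k)
    rw [← h2, Measure.map_map] at h3
    · exact h3
    · exact measurable_glue.comp (f := fun p : Path × Path => (p.1, τ k p.1, p.2))
        (by have := hτm k; fun_prop)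
    · exact (hE k).prodMk (measurable_chain' hE hτm j (k + 1))

end Pool.Agent.Lib.MP_d1eed2_pr
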