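import Mathlib
import Pool.Agent.Lib.MP_d1eed2_pr.Chain

open MeasureTheory ProbabilityTheory Filter Topology
open scoped NNReal ENNReal

namespace Pool.Agent.Lib.MP_d1eed2_pr

section Deterministic

/-- The partial sums of a two-sided sequence. -/
noncomputable def Sd (T : ℤ → ℝ≥0) (k : ℤ) : ℝ :=
  ∑ i ∈ Finset.Ico 0 k, (T i : ℝ) - ∑ i ∈ Finset.Ico k 0, (T i : ℝ)

variable {T : ℤ → ℝ≥0} {b : ℤ → ℝ≥0 → ℝ}

lemma Sd_zero : Sd T 0 = 0 := by simp [Sd]

lemma Sd_succ (k : ℤ) : Sd T (k + 1) = Sd T k + T k := by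
  unfold Sd
  rcases le_or_gt 0 k with hk | hk
  · have h1 : Finset.Ico k 0 = ∅ := Finset.Ico_eq_empty (by omega)
    have h2 : Finset.Ico (k + 1) 0 = ∅ := Finset.Ico_eq_empty (by omega)
    have h3 : Finset.Ico 0 (k + 1) = insert k (Finset.Ico 0 k) := by
      ext i; simp only [Finset.mem_Ico, Finset.mem_insert]; omega
    rw [h1, h2, h3, Finset.sum_insert (by simp)]
    simp; ring
  · have h1 : Finset.Ico 0 k = ∅ := Finset.Ico_eq_empty (by omega)
    have h2 : Finset.Ico 0 (k + 1) = ∅ := Finset.Ico_eq_empty (by omega)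
    have h3 : Finset.Ico k 0 = insert k (Finset.Ico (k + 1) 0) := by
      ext i; simp only [Finset.mem_Ico, Finset.mem_insert]; omega
    rw [h1, h2, h3, Finset.sum_insert (by simp)]
    simp

lemma Sd_mono {j k : ℤ} (h : j ≤ k) : Sd T j ≤ Sd T k := by
  induction k, h using Int.leInduction with
  | base => exact le_rfl
  | succ k _ ih =>
    rw [Sd_succ]
    have : (0:ℝ) ≤ T k := (T k).2
    linarith

lemma Sd_growth (hT : ∀ k, 1 ≤ T k) {j k : ℤ} (h : j ≤ k) : (k : ℝ) - j ≤ Sd T k - Sd T j := by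
  induction k, h using Int.leInduction with
  | base => simp
  | succ k _ ih =>
    rw [Sd_succ]
    have : (1:ℝ) ≤ T k := by exact_mod_cast hT k
    push_cast
    linarith

lemma le_Sd (hT : ∀ k, 1 ≤ T k) {k : ℤ} (h : 0 ≤ k) : (k : ℝ) ≤ Sd T k := by
  have := Sd_growth hT h
  rw [Sd_zero] at this
  push_cast at this
  linarith

lemma Sd_le (hT : ∀ k, 1 ≤ T k) {k : ℤ} (h : k ≤ 0) : Sd T k ≤ k := by
  have := Sd_growth hT h
  rw [Sd_zero] at this
  push_cast at this
  linarith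

/-- The contribution of piece number `k`. -/
noncomputable def trm (T : ℤ → ℝ≥0) (b : ℤ → ℝ≥0 → ℝ) (k : ℤ) (t : ℝ) : ℝ :=
  b k (min (t - Sd T k).toNNReal (T k)) - if k < 0 then b k (T k) else 0

/-- The process put together from the pieces. -/
noncomputable def Xd (T : ℤ → ℝ≥0) (b : ℤ → ℝ≥0 → ℝ) (t : ℝ) : ℝ := ∑ᶠ k, trm T b k t

lemma trm_zero_of_le (hb0 : ∀ k, b k 0 = 0) {k : ℤ} {t : ℝ} (hk : 0 ≤ k) (ht : t ≤ Sd T k) :
    trm T b k t = 0 := by
  unfold trm
  rw [Real.toNNReal_of_nonpos (by linarith), zero_min, hb0, if_neg (by omega), sub_zero]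

lemma trm_zero_of_ge {k : ℤ} {t : ℝ} (hk : k < 0) (ht : Sd T (k + 1) ≤ t) :
    trm T b k t = 0 := by
  unfold trm
  rw [Sd_succ] at ht
  rw [min_eq_right, if_pos hk, sub_self]
  exact NNReal.le_toNNReal_of_coe_le (by linarith)

lemma trm_support (hT : ∀ k, 1 ≤ T k) (hb0 : ∀ k, b k 0 = 0) {k : ℤ} {t : ℝ}
    (h : trm T b k t ≠ 0) : (k:ℝ) < t ∧ 0 ≤ k ∨ t < k + 1 ∧ k < 0 := by
  rcases le_or_gt 0 k with hk | hk
  · left
    refine ⟨?_, hk⟩
    by_contra hcon
    push Not at hcon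
    exact h (trm_zero_of_le hb0 hk (hcon.trans (le_Sd hT hk)))
  · right
    refine ⟨?_, hk⟩
    by_contra hcon
    push Not at hcon
    refine h (trm_zero_of_ge hk (le_trans ?_ hcon))
    have := Sd_le hT (k := k + 1) (by omega)
    push_cast at this
    exact this

lemma trm_support_mem (hT : ∀ k, 1 ≤ T k) (hb0 : ∀ k, b k 0 = 0) {k : ℤ} {t : ℝ} {n : ℕ}
    (ht : |t| ≤ n) (h : trm T b k t ≠ 0) : k ∈ Finset.Ico (-(n:ℤ) - 1) (n + 1) := by
  rw [abs_le] at ht
  rw [Finset.mem_Ico]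
  rcases trm_support hT hb0 h with ⟨h1, h2⟩ | ⟨h1, h2⟩
  · have h3 : (k:ℝ) < n := by linarith
    have h4 : k < n := by exact_mod_cast h3
    omega
  · have h3 : (-(n:ℝ)) < k + 1 := by linarith
    have h4 : -(n:ℤ) < k + 1 := by exact_mod_cast h3
    omega

lemma trm_finite (hT : ∀ k, 1 ≤ T k) (hb0 : ∀ k, b k 0 = 0) (t : ℝ) :
    (Function.support fun k => trm T b k t).Finite := by
  obtain ⟨n, hn⟩ := exists_nat_ge |t|
  exact (Finset.finite_toSet (Finset.Ico (-(n:ℤ) - 1) (n + 1))).subset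
    fun k hk => trm_support_mem hT hb0 hn hk

lemma Xd_eq_sum (hT : ∀ k, 1 ≤ T k) (hb0 : ∀ k, b k 0 = 0) {t : ℝ} {n : ℕ} (ht : |t| ≤ n) :
    Xd T b t = ∑ k ∈ Finset.Ico (-(n:ℤ) - 1) (n + 1), trm T b k t := by
  unfold Xd
  exact finsum_eq_sum_of_support_subset _ fun k hk => trm_support_mem hT hb0 ht hk

lemma continuous_trm (hbc : ∀ k, Continuous (b k)) (k : ℤ) : Continuous (trm T b k) := by
  unfold trm
  have := hbc k
  fun_prop

lemma continuous_Xd (hT : ∀ k, 1 ≤ T k) (hb0 : ∀ k, b k 0 = 0) (hbc : ∀ k, Continuous (b k)) :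
    Continuous (Xd T b) := by
  rw [continuous_iff_continuousAt]
  intro t
  obtain ⟨n, hn⟩ := exists_nat_gt |t|
  have hopen : {s : ℝ | |s| < n} ∈ 𝓝 t := (isOpen_lt continuous_abs continuous_const).mem_nhds hn
  have h1 : ContinuousAt (fun t => ∑ k ∈ Finset.Ico (-(n:ℤ) - 1) (n + 1), trm T b k t) t := by
    have : Continuous (fun t => ∑ k ∈ Finset.Ico (-(n:ℤ) - 1) (n + 1), trm T b k t) :=
      continuous_finsetSum _ fun k _ => continuous_trm hbc k
    exact this.continuousAt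
  refine h1.congr ?_
  filter_upwards [hopen] with s hs
  exact (Xd_eq_sum hT hb0 (le_of_lt hs)).symm

lemma Xd_zero (hT : ∀ k, 1 ≤ T k) (hb0 : ∀ k, b k 0 = 0) : Xd T b 0 = 0 := by
  unfold Xd
  rw [finsum_eq_zero_of_forall_eq_zero]
  intro k
  by_contra h
  rcases trm_support hT hb0 h with ⟨h1, h2⟩ | ⟨h1, h2⟩
  · have : k < 0 := by exact_mod_cast h1
    omega
  · have h3 : (0:ℝ) < (k:ℝ) + 1 := h1
    have : (0:ℤ) < k + 1 := by exact_mod_cast h3
    omega

/-- The increments of the process are those of the pieces. -/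
lemma Xd_piece (hT : ∀ k, 1 ≤ T k) (hb0 : ∀ k, b k 0 = 0) (k : ℤ) {r : ℝ≥0} (hr : r ≤ T k) :
    Xd T b (Sd T k + r) - Xd T b (Sd T k) = b k r := by
  unfold Xd
  rw [← finsum_sub_distrib (trm_finite hT hb0 _) (trm_finite hT hb0 _)]
  rw [finsum_eq_single _ k]
  · unfold trm
    have e1 : Sd T k + r - Sd T k = r := by ring
    rw [e1, sub_self, Real.toNNReal_coe, Real.toNNReal_zero, zero_min, hb0, min_eq_left hr]
    ring
  · intro j hj
    rcases lt_or_gt_of_ne hj with hj | hj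
    · -- earlier piece
      have h1 : Sd T j + T j ≤ Sd T k := by
        rw [← Sd_succ]; exact Sd_mono (by omega)
      have h2 : (0:ℝ) ≤ r := r.2
      unfold trm
      rw [min_eq_right, min_eq_right, sub_self]
      · exact NNReal.le_toNNReal_of_coe_le (by linarith)
      · exact NNReal.le_toNNReal_of_coe_le (by linarith)
    · -- later piece
      have h1 : Sd T k + T k ≤ Sd T j := by
        rw [← Sd_succ]; exact Sd_mono (by omega)
      have h2 : (r:ℝ) ≤ T k := by exact_mod_cast hr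
      have h3 : (0:ℝ) ≤ T k := (T k).2
      unfold trm
      rw [Real.toNNReal_of_nonpos (by linarith), Real.toNNReal_of_nonpos (by linarith), sub_self]

end Deterministic

end Pool.Agent.Lib.MP_d1eed2_pr
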