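import Mathlib
import Pool.Agent.Lib.MP_d1eed2_pr.Coal

open MeasureTheory ProbabilityTheory Filter Topology
open scoped NNReal ENNReal

namespace Pool.Agent.Lib.MP_d1eed2_pr

/-- There is a level for which quietness has positive probability. -/
lemma exists_level : ∃ h : ℝ, 0 < h ∧ pr h ≠ 0 := by
  by_contra hcon
  push Not at hcon
  have h1 : ∀ n : ℕ, Wi {e : Path | quiet ((n : ℝ) + 1) (ext e.1) 1 3} = 0 := by
    intro n
    have := hcon ((n : ℝ) + 1) (by positivity)
    unfold pr at this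
    rcases mul_eq_zero.1 this with h | h
    · exact h
    · exact absurd h (gt_pos _).ne'
  have h2 : Wi (⋃ n : ℕ, {e : Path | quiet ((n : ℝ) + 1) (ext e.1) 1 3}) = 0 :=
    measure_iUnion_null h1
  have h3 : (⋃ n : ℕ, {e : Path | quiet ((n : ℝ) + 1) (ext e.1) 1 3}) = Set.univ := by
    rw [Set.eq_univ_iff_forall]
    intro e
    have hc := continuous_ext e.2
    have hcv : Continuous fun r => ext e.1 r - ext e.1 (r - 1) := by fun_prop
    obtain ⟨C, hC⟩ := (isCompact_Icc (a := (1:ℝ)) (b := 3)).exists_bound_of_continuousOn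
      hcv.continuousOn
    obtain ⟨n, hn⟩ := exists_nat_ge C
    refine Set.mem_iUnion.2 ⟨n, ?_⟩
    intro r hr1 hr2
    have := hC r ⟨hr1, hr2⟩
    rw [Real.norm_eq_abs] at this
    have := (le_abs_self _).trans this
    linarith
  rw [h3, measure_univ] at h2
  exact one_ne_zero h2

/-- **Coalescence.** Two dual walkers driven by the same Brownian motion meet almost surely. -/
theorem coalescence {Ω : Type*} {mΩ : MeasurableSpace Ω} {P : Measure Ω} {Z : ℝ≥0 → Ω → ℝ}
    (hZ : IsPreBrownianReal Z P) (hc : ∀ ω, Continuous fun t => Z t ω)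
    (hm : ∀ t, Measurable (Z t)) {h : ℝ} (hpr : pr h ≠ 0) {N : ℕ → ℕ}
    (hN : ∀ c : ℝ, ∃ m₀, ∀ i, m₀ ≤ i → c + 2 * i ≤ N i) (a0 : ℝ≥0) :
    P {ω | ∀ m, wk h (fun m => (N m : ℝ)) (ext fun t => Z t ω) 0 m
      < wk h (fun m => (N m : ℝ)) (ext fun t => Z t ω) a0 m} = 0 := by
  have h1 := coal_canonical h N a0 hpr hN
  have hmeas : MeasurableSet {e | ∀ m, 0 < dd h N a0 m e} := by
    have : {e | ∀ m, 0 < dd h N a0 m e} = ⋂ m, {e | 0 < dd h N a0 m e} := by ext; simp
    rw [this]
    exact MeasurableSet.iInter fun m => measurableSet_lt measurable_const (measurable_dd h N a0 m)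
  rw [← map_pathMap hZ hc hm, Measure.map_apply (measurable_pathMap hc hm) hmeas] at h1
  refine measure_mono_null ?_ h1
  intro ω hω m
  have := hω m
  change 0 < dd h N a0 m (pathMap Z hc ω)
  unfold dd wp
  exact sub_pos.2 this

end Pool.Agent.Lib.MP_d1eed2_pr
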