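import Mathlib
import Pool.Agent.Lib.MP_d1eed2_pr.Glue

open MeasureTheory ProbabilityTheory Filter Topology
open scoped NNReal ENNReal

namespace Pool.Agent.Lib.MP_d1eed2_pr

section

variable {Ω : Type*} {mΩ : MeasurableSpace Ω} {P : Measure Ω}

lemma evm_le [P.IsComplete] {G : MeasurableSpace Ω} (hG : G ≤ mΩ) :
    eventuallyMeasurableSpace G (ae P) ≤ mΩ := by
  rintro s ⟨t, ht, hst⟩
  have h1 : @NullMeasurableSet Ω mΩ s P := ⟨t, hG t ht, hst⟩
  exact @NullMeasurableSet.measurable_of_complete Ω mΩ P s h1 _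

lemma evm_mono {G G' : MeasurableSpace Ω} (hG : G ≤ G') :
    eventuallyMeasurableSpace G (ae P) ≤ eventuallyMeasurableSpace G' (ae P) := by
  rintro s ⟨t, ht, hst⟩
  exact ⟨t, hG t ht, hst⟩

lemma indep_evm {G G' : MeasurableSpace Ω} (h : Indep G G' P) :
    Indep (eventuallyMeasurableSpace G (ae P)) G' P := by
  rw [Indep_iff] at h ⊢
  rintro s u ⟨t, ht, hst⟩ hu
  have h1 : P (s ∩ u) = P (t ∩ u) := measure_congr (hst.inter (EventuallyEq.refl _ _))
  rw [h1, measure_congr hst, h t u ht hu]

variable {Z : ℝ≥0 → Ω → ℝ}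

lemma past_mono (hc : ∀ ω, Continuous fun t => Z t ω) {r r' : ℝ≥0} (h : r ≤ r') :
    past Z hc r ≤ past Z hc r' := by
  unfold past
  have e : pathMap (pst Z r) (pst_cont hc r)
      = stp r ∘ pathMap (pst Z r') (pst_cont hc r') := by
    funext ω
    apply Subtype.ext
    funext t
    change Z (min t r) ω = Z (min (min t r) r') ω
    rw [min_eq_left ((min_le_right _ _).trans h)]
  rw [e, ← MeasurableSpace.comap_comp]
  exact MeasurableSpace.comap_mono (measurable_stp r).comap_le

lemma futs_anti (hc : ∀ ω, Continuous fun t => Z t ω) {r r' : ℝ≥0} (h : r ≤ r') :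
    MeasurableSpace.comap (pathMap (fut Z r') (fut_cont hc r')) inferInstance
      ≤ MeasurableSpace.comap (pathMap (fut Z r) (fut_cont hc r)) inferInstance := by
  have e : pathMap (fut Z r') (fut_cont hc r')
      = shp (r' - r) ∘ pathMap (fut Z r) (fut_cont hc r) := by
    funext ω
    apply Subtype.ext
    funext t
    change Z (r' + t) ω - Z r' ω
      = (Z (r + (r' - r + t)) ω - Z r ω) - (Z (r + (r' - r)) ω - Z r ω)
    rw [← add_assoc, add_tsub_cancel_of_le h]
    ring
  rw [e, ← MeasurableSpace.comap_comp]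
  exact MeasurableSpace.comap_mono (measurable_shp _).comap_le

/-- completed natural filtration -/
def filt0 (P : Measure Ω) [P.IsComplete] (hc : ∀ ω, Continuous fun t => Z t ω)
    (hm : ∀ t, Measurable (Z t)) : Filtration ℝ≥0 mΩ where
  seq r := eventuallyMeasurableSpace (past Z hc r) (ae P)
  mono' _ _ h := evm_mono (past_mono hc h)
  le' r := evm_le (past_le hc hm r)

/-- the augmented filtration -/
noncomputable def filt (P : Measure Ω) [P.IsComplete] (hc : ∀ ω, Continuous fun t => Z t ω)
    (hm : ∀ t, Measurable (Z t)) : Filtration ℝ≥0 mΩ := (filt0 P hc hm).rightCont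

variable [P.IsComplete] (hc : ∀ ω, Continuous fun t => Z t ω) (hm : ∀ t, Measurable (Z t))

lemma filt_rc : (filt P hc hm).IsRightContinuous := by
  unfold filt; infer_instance

lemma past_le_filt (r : ℝ≥0) : past Z hc r ≤ filt P hc hm r :=
  (le_eventuallyMeasurableSpace (l := ae P)).trans ((filt0 P hc hm).le_rightCont r)

lemma filt_null {s : Set Ω} (hs : P s = 0) (r : ℝ≥0) : MeasurableSet[filt P hc hm r] s := by
  refine (filt0 P hc hm).le_rightCont r s ?_
  exact ⟨∅, @MeasurableSet.empty _ (past Z hc r), (ae_eq_empty.2 hs)⟩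

lemma filt_adapted (r : ℝ≥0) : Measurable[filt P hc hm r] (Z r) := by
  have h1 : Measurable[past Z hc r] (Z r) := by
    have e : Z r = (fun e : Path => e.1 r) ∘ pathMap (pst Z r) (pst_cont hc r) := by
      funext ω
      change Z r ω = Z (min r r) ω
      rw [min_self]
    rw [e]
    exact (measurable_eval_path r).comp (comap_measurable _)
  exact h1.mono (past_le_filt hc hm r) le_rfl

lemma filt_le (r r' : ℝ≥0) (h : r < r') :
    filt P hc hm r ≤ eventuallyMeasurableSpace (past Z hc r') (ae P) := by
  unfold filt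
  rw [Filtration.rightCont_eq]
  exact iInf₂_le_of_le r' h le_rfl

lemma filt_indep [IsProbabilityMeasure P] (hZ : IsPreBrownianReal Z P) {s t : ℝ≥0}
    (hst : s ≤ t) :
    Indep (filt P hc hm s)
      (MeasurableSpace.comap (fun ω => Z t ω - Z s ω) inferInstance) P := by
  set a : ℕ → ℝ≥0 := fun n => s + 1 / (n + 1) with ha
  have hapos : ∀ n, s < a n := fun n => by
    simp only [ha]
    exact lt_add_of_pos_right _ (by positivity)
  have hanti : Antitone a := by
    intro m n hmn
    simp only [ha]
    gcongr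
  have hlim : Tendsto a atTop (𝓝 s) := by
    have h1 : Tendsto (fun n : ℕ => (1 : ℝ≥0) / (n + 1)) atTop (𝓝 0) := by
      have := tendsto_one_div_add_atTop_nhds_zero_nat (𝕜 := ℝ)
      rw [← NNReal.tendsto_coe]
      simpa using this
    have h2 := (tendsto_const_nhds (x := s)).add h1
    rw [add_zero] at h2
    exact h2
  set G : ℕ → MeasurableSpace Ω := fun n =>
    MeasurableSpace.comap (pathMap (fut Z (a n)) (fut_cont hc (a n))) inferInstance with hG
  have hind : ∀ n, Indep (G n) (filt P hc hm s) P := by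
    intro n
    exact (indep_of_indep_of_le_left (indep_evm (indep_past_fut hZ hc (a n)))
      (filt_le hc hm s (a n) (hapos n))).symm
  have hmono : Monotone G := fun m n hmn => futs_anti hc (hanti hmn)
  have h2 := indep_iSup_of_monotone hind
    (fun n => (measurable_pathMap (fut_cont hc (a n)) (fut_meas hm (a n))).comap_le)
    ((filt P hc hm).le s) hmono
  refine indep_of_indep_of_le_right h2.symm ?_
  refine Measurable.comap_le ?_
  have h3 : ∀ n, Measurable[⨆ n, G n] (fun ω => Z (max t (a n)) ω - Z (a n) ω) := by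
    intro n
    have e : (fun ω => Z (max t (a n)) ω - Z (a n) ω)
        = (fun e : Path => e.1 (max t (a n) - a n))
          ∘ pathMap (fut Z (a n)) (fut_cont hc (a n)) := by
      funext ω
      change _ = Z (a n + (max t (a n) - a n)) ω - Z (a n) ω
      rw [add_tsub_cancel_of_le (le_max_right _ _)]
    rw [e]
    exact ((measurable_eval_path _).comp (comap_measurable _)).mono (le_iSup G n) le_rfl
  refine @measurable_of_tendsto_metrizable Ω ℝ (⨆ n, G n) _ _ _ _
    (fun n ω => Z (max t (a n)) ω - Z (a n) ω) (fun ω => Z t ω - Z s ω) h3 ?_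
  rw [tendsto_pi_nhds]
  intro ω
  refine Tendsto.sub ?_ ?_
  · have h4 : Tendsto (fun n => max t (a n)) atTop (𝓝 (max t s)) :=
      tendsto_const_nhds.max hlim
    rw [max_eq_left hst] at h4
    exact ((hc ω).tendsto t).comp h4
  · exact ((hc ω).tendsto s).comp hlim

end

end Pool.Agent.Lib.MP_d1eed2_pr
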