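import Mathlib
import Pool.Agent.Lib.MP_d1eed2_pr.Build
import Pool.Agent.Lib.MP_d1eed2_pr.CoalMain

open MeasureTheory ProbabilityTheory Filter Topology
open scoped NNReal ENNReal

namespace Pool.Agent.Lib.MP_d1eed2_pr

section Rule

/-- Positions of the exceptional pieces. -/
def kap (N : ℕ → ℕ) (m : ℕ) : ℕ := ∑ i ∈ Finset.range m, (N i + 1)

lemma kap_zero (N : ℕ → ℕ) : kap N 0 = 0 := by simp [kap]

lemma kap_succ (N : ℕ → ℕ) (m : ℕ) : kap N (m + 1) = kap N m + N m + 1 := by
  unfold kap; rw [Finset.sum_range_succ, add_assoc]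

lemma kap_strictMono (N : ℕ → ℕ) : StrictMono (kap N) := by
  apply strictMono_nat_of_lt_succ
  intro m
  rw [kap_succ]; omega

/-- Exceptional pieces. -/
def Exc (N : ℕ → ℕ) (k : ℤ) : Prop := ∃ m, k = -(kap N (m + 1) : ℤ)

open scoped Classical in
/-- The stopping rules. -/
noncomputable def rule (h : ℝ) (N : ℕ → ℕ) (k : ℤ) (e : Path) : ℝ≥0 :=
  if Exc N k then (nxt h (ext e.1) 0).toNNReal else 1

variable {h : ℝ} {N : ℕ → ℕ}

lemma rule_exc {k : ℤ} (hk : Exc N k) (e : Path) :
    (rule h N k e : ℝ) = nxt h (ext e.1) 0 := by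
  unfold rule
  rw [if_pos hk, Real.coe_toNNReal]
  have := add_one_le_nxt (h := h) (w := ext e.1) (s := 0)
  linarith

lemma rule_not_exc {k : ℤ} (hk : ¬ Exc N k) (e : Path) : rule h N k e = 1 := by
  unfold rule
  rw [if_neg hk]

lemma one_le_rule (k : ℤ) (e : Path) : 1 ≤ rule h N k e := by
  by_cases hk : Exc N k
  · rw [← NNReal.coe_le_coe, rule_exc hk]
    have := add_one_le_nxt (h := h) (w := ext e.1) (s := 0)
    push_cast
    linarith
  · rw [rule_not_exc hk]

lemma rule_le (k : ℤ) (e : Path) : rule h N k e ≤ 3 := by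
  by_cases hk : Exc N k
  · rw [← NNReal.coe_le_coe, rule_exc hk]
    have := nxt_le_add_three (h := h) (w := ext e.1) (s := 0)
    push_cast
    linarith
  · rw [rule_not_exc hk]; norm_num

lemma measurable_rule (k : ℤ) : Measurable (rule h N k) := by
  by_cases hk : Exc N k
  · have : rule h N k = fun e => (nxt h (ext e.1) 0).toNNReal := by
      funext e; unfold rule; rw [if_pos hk]
    rw [this]
    exact (measurable_nxt_fix h 0).real_toNNReal
  · have : rule h N k = fun e => 1 := by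
      funext e; exact rule_not_exc hk e
    rw [this]
    exact measurable_const

lemma isLocal_rule (k : ℤ) : IsLocal (rule h N k) := by
  intro e e' H
  by_cases hk : Exc N k
  · rw [← NNReal.coe_inj, rule_exc hk, rule_exc hk]
    refine nxt_congr (c := 0) (continuous_ext e.2) (continuous_ext e'.2) ?_
    intro t ht0 ht
    rw [← rule_exc hk] at ht
    lift t to ℝ≥0 using ht0
    rw [ext_coe, ext_coe, add_zero]
    exact H t (by exact_mod_cast ht)
  · rw [rule_not_exc hk, rule_not_exc hk]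

lemma not_exc_between {m : ℕ} {k : ℤ} (h1 : -(kap N (m + 1) : ℤ) < k) (h2 : k < -(kap N m : ℤ)) :
    ¬ Exc N k := by
  rintro ⟨m', rfl⟩
  have h3 : kap N (m' + 1) < kap N (m + 1) := by omega
  have h4 : kap N m < kap N (m' + 1) := by omega
  have h5 := (kap_strictMono N).lt_iff_lt.1 h3
  have h6 := (kap_strictMono N).lt_iff_lt.1 h4
  omega

end Rule

section Sums

variable {T : ℤ → ℝ≥0}

lemma Sd_add_of_one {j : ℤ} {n : ℕ} (H : ∀ i, j ≤ i → i < j + n → T i = 1) :
    Sd T (j + n) = Sd T j + n := by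
  induction n with
  | zero => simp
  | succ n ih =>
    have e : j + ((n + 1 : ℕ) : ℤ) = j + n + 1 := by push_cast; ring
    rw [e, Sd_succ, ih (fun i h1 h2 => H i h1 (by push_cast; omega)),
      H (j + n) (by omega) (by push_cast; omega)]
    push_cast; ring

end Sums

/-- **Duality.** The dual walkers separate the images of the exceptional times. -/
lemma dual_walk {h : ℝ} {N : ℕ → ℕ} {X : ℝ → ℝ} (hX : Continuous X) {s : ℕ → ℝ} (hs0 : s 0 = 0)
    (hs : ∀ m, s m = nxt h X (s (m + 1)) + N m) {R : ℝ} (hR : 0 ≤ R) {a0 : ℝ≥0} (ha : R < a0)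
    (m : ℕ) :
    wk h (fun m => (N m : ℝ)) (ext fun t : ℝ≥0 => X R - X (R - t)) 0 m ≤ R - s m ∧
      R - s m < wk h (fun m => (N m : ℝ)) (ext fun t : ℝ≥0 => X R - X (R - t)) a0 m ∧
      0 ≤ wk h (fun m => (N m : ℝ)) (ext fun t : ℝ≥0 => X R - X (R - t)) 0 m ∧
      0 ≤ wk h (fun m => (N m : ℝ)) (ext fun t : ℝ≥0 => X R - X (R - t)) a0 m := by
  have hcZ : Continuous (fun t : ℝ≥0 => X R - X (R - t)) := by fun_prop
  have hcr : Continuous (fun t : ℝ => X R - X (R - t)) := by fun_prop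
  have key : ∀ x : ℝ, 0 ≤ x → nxt h (ext fun t : ℝ≥0 => X R - X (R - t)) x
      = nxt h (fun t => X R - X (R - t)) x := by
    intro x hx
    refine nxt_congr (c := 0) hcr (continuous_ext hcZ) ?_
    intro t ht _
    have ht0 := hx.trans ht
    lift t to ℝ≥0 using ht0
    rw [ext_coe, add_zero]
  induction m with
  | zero =>
    simp only [wk, hs0]
    refine ⟨by linarith, by linarith, le_refl _, a0.2⟩
  | succ m ih =>
    obtain ⟨h1, h2, h3, h4⟩ := ih
    have hn : (0:ℝ) ≤ N m := Nat.cast_nonneg _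
    simp only [wk]
    rw [key _ (by linarith), key _ (by linarith)]
    refine ⟨?_, ?_, ?_, ?_⟩
    · have := (nxt_dual (h := h) (s := s (m + 1)) hX R
        (R - (wk h (fun m => (N m : ℝ)) (ext fun t : ℝ≥0 => X R - X (R - t)) 0 m + N m))).1 (by
          have := hs m
          linarith)
      rw [sub_sub_cancel] at this
      exact this
    · by_contra hcon
      push Not at hcon
      have := (nxt_dual (h := h) (s := s (m + 1)) hX R
        (R - (wk h (fun m => (N m : ℝ)) (ext fun t : ℝ≥0 => X R - X (R - t)) a0 m + N m))).2 (by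
          rw [sub_sub_cancel]; exact hcon)
      have := hs m
      linarith
    · have := add_one_le_nxt (h := h) (w := fun t => X R - X (R - t))
        (s := wk h (fun m => (N m : ℝ)) (ext fun t : ℝ≥0 => X R - X (R - t)) 0 m + N m)
      linarith
    · have := add_one_le_nxt (h := h) (w := fun t => X R - X (R - t))
        (s := wk h (fun m => (N m : ℝ)) (ext fun t : ℝ≥0 => X R - X (R - t)) a0 m + N m)
      linarith

section Random

variable {Ω : Type*} {mΩ : MeasurableSpace Ω} {P : Measure Ω}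

/-- duration of piece `k` -/
noncomputable def TT (h : ℝ) (N : ℕ → ℕ) (E : ℤ → Ω → Path) (k : ℤ) (ω : Ω) : ℝ≥0 :=
  rule h N k (E k ω)

/-- start of piece `k` -/
noncomputable def SS (h : ℝ) (N : ℕ → ℕ) (E : ℤ → Ω → Path) (k : ℤ) (ω : Ω) : ℝ :=
  Sd (fun i => TT h N E i ω) k

/-- the process -/
noncomputable def XX (h : ℝ) (N : ℕ → ℕ) (E : ℤ → Ω → Path) (t : ℝ) (ω : Ω) : ℝ :=
  Xd (fun i => TT h N E i ω) (fun i => (E i ω).1) t

variable {h : ℝ} {N : ℕ → ℕ} {E : ℤ → Ω → Path}

lemma one_le_TT (k : ℤ) (ω : Ω) : 1 ≤ TT h N E k ω := one_le_rule _ _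

lemma XX_piece (hE0 : ∀ k ω, (E k ω).1 0 = 0) (k : ℤ) (ω : Ω) {r : ℝ≥0}
    (hr : r ≤ TT h N E k ω) :
    XX h N E (SS h N E k ω + r) ω - XX h N E (SS h N E k ω) ω = (E k ω).1 r :=
  Xd_piece (fun k => one_le_TT k ω) (fun k => hE0 k ω) k hr

lemma XX_cont (hE0 : ∀ k ω, (E k ω).1 0 = 0) (ω : Ω) : Continuous fun t => XX h N E t ω :=
  continuous_Xd (fun k => one_le_TT k ω) (fun k => hE0 k ω) (fun k => (E k ω).2)

lemma SS_succ (k : ℤ) (ω : Ω) : SS h N E (k + 1) ω = SS h N E k ω + TT h N E k ω := Sd_succ k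

lemma chain_eq (hE0 : ∀ k ω, (E k ω).1 0 = 0) (ω : Ω) (j : ℕ) : ∀ (k : ℤ) (r : ℝ≥0),
    (r : ℝ) ≤ SS h N E (k + j + 1) ω - SS h N E k ω →
    (chain (rule h N) E j k ω).1 r
      = XX h N E (SS h N E k ω + r) ω - XX h N E (SS h N E k ω) ω := by
  induction j with
  | zero =>
    intro k r hr
    rw [Nat.cast_zero, add_zero, SS_succ] at hr
    rw [XX_piece hE0 k ω (by
      rw [← NNReal.coe_le_coe]; linarith)]
    rfl
  | succ j ih =>
    intro k r hr
    have e : k + ((j + 1 : ℕ) : ℤ) + 1 = (k + 1) + j + 1 := by push_cast; ring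
    rw [e] at hr
    change (E k ω).1 (min r (TT h N E k ω))
      + (chain (rule h N) E j (k + 1) ω).1 (r - TT h N E k ω) = _
    have hsucc := SS_succ (h := h) (N := N) (E := E) k ω
    rcases le_total r (TT h N E k ω) with hle | hle
    · rw [min_eq_left hle, tsub_eq_zero_of_le hle, ih (k + 1) 0, XX_piece hE0 k ω hle]
      · simp
      · have := Sd_mono (T := fun i => TT h N E i ω) (show k + 1 ≤ k + 1 + j + 1 by omega)
        change SS h N E (k + 1) ω ≤ SS h N E (k + 1 + j + 1) ω at this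
        rw [NNReal.coe_zero]
        linarith
    · rw [min_eq_right hle, ← XX_piece hE0 k ω (le_refl _), ih (k + 1)]
      · have e2 : SS h N E (k + 1) ω + ((r - TT h N E k ω : ℝ≥0) : ℝ) = SS h N E k ω + r := by
          rw [NNReal.coe_sub hle, hsucc]; ring
        rw [e2, ← hsucc]
        ring
      · rw [NNReal.coe_sub hle]
        linarith

/-- every start of a piece is the start of a forward Brownian motion -/
theorem forward [IsProbabilityMeasure P] (hE0 : ∀ k ω, (E k ω).1 0 = 0)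
    (hE : ∀ k, Measurable (E k)) (hind : iIndepFun E P) (hlaw : ∀ k, P.map (E k) = Wi) (k : ℤ) :
    IsPreBrownianReal (fun (t : ℝ≥0) ω =>
      XX h N E (SS h N E k ω + t) ω - XX h N E (SS h N E k ω) ω) P := by
  refine ⟨fun I => ?_⟩
  obtain ⟨j, hj⟩ : ∃ j : ℕ, ∀ t ∈ I, (t : ℝ≥0) ≤ j := by
    obtain ⟨M, hM⟩ := I.finite_toSet.bddAbove
    obtain ⟨j, hj⟩ := exists_nat_ge M
    exact ⟨j, fun t ht => (hM ht).trans hj⟩
  have h1 : (fun ω => I.restrict (fun t : ℝ≥0 =>
      XX h N E (SS h N E k ω + t) ω - XX h N E (SS h N E k ω) ω))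
      = fun ω => I.restrict (fun t : ℝ≥0 => (chain (rule h N) E j k ω).1 t) := by
    funext ω
    ext ⟨t, ht⟩
    change _ = (chain (rule h N) E j k ω).1 t
    rw [chain_eq hE0 ω j k t]
    · rfl
    · have h2 := Sd_growth (T := fun i => TT h N E i ω) (fun i => one_le_TT i ω)
        (show k ≤ k + j + 1 by omega)
      change _ ≤ SS h N E (k + j + 1) ω - SS h N E k ω at h2
      push_cast at h2
      have h3 : (t : ℝ) ≤ j := by exact_mod_cast hj t ht
      linarith
  rw [h1]
  have hmc := measurable_chain' hE (τ := rule h N) (fun k => measurable_rule k) j k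
  have hmI : Measurable (fun e : Path => I.restrict (fun t => e.1 t)) :=
    (Finset.measurable_restrict I).comp measurable_subtype_coe
  refine ⟨(hmI.comp hmc).aemeasurable, ?_⟩
  rw [← (Wi_isPreBrownian.hasLaw I).map_eq, ← chain_law hE hind hlaw
    (τ := rule h N) (fun k => measurable_rule k) (fun k => isLocal_rule k) j k,
    Measure.map_map hmI hmc]
  rfl

/-- The relation between consecutive exceptional times. -/
lemma SS_exc (hE0 : ∀ k ω, (E k ω).1 0 = 0) (ω : Ω) (m : ℕ) :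
    SS h N E (-(kap N m : ℤ)) ω
      = nxt h (fun t => XX h N E t ω) (SS h N E (-(kap N (m + 1) : ℤ)) ω) + N m := by
  have h1 : SS h N E (-(kap N m : ℤ)) ω
      = SS h N E (-(kap N (m + 1) : ℤ) + 1) ω + N m := by
    have e : -(kap N m : ℤ) = (-(kap N (m + 1) : ℤ) + 1) + (N m : ℕ) := by
      rw [kap_succ]; push_cast; ring
    conv_lhs => rw [e]
    refine Sd_add_of_one ?_
    intro i hi1 hi2
    rw [← e] at hi2
    exact rule_not_exc (not_exc_between (by omega) hi2) _
  rw [h1, SS_succ]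
  congr 1
  set k := -(kap N (m + 1) : ℤ) with hk
  have hT : (TT h N E k ω : ℝ) = nxt h (ext (E k ω).1) 0 := rule_exc ⟨m, rfl⟩ _
  have hc := XX_cont (h := h) (N := N) hE0 ω
  have h2 : nxt h (fun t => XX h N E (SS h N E k ω + t) ω - XX h N E (SS h N E k ω) ω) 0
      = nxt h (ext (E k ω).1) 0 := by
    refine nxt_congr (c := 0) (continuous_ext (E k ω).2) (by fun_prop) ?_
    intro t ht0 ht
    rw [← hT] at ht
    lift t to ℝ≥0 using ht0
    rw [ext_coe, add_zero]
    exact XX_piece hE0 k ω (by exact_mod_cast ht)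
  rw [nxt_shift (w := fun t => XX h N E t ω), add_zero] at h2
  linarith

/-- **No reversal time.** -/
theorem no_backward [P.IsComplete] (hE0 : ∀ k ω, (E k ω).1 0 = 0) (hpr : pr h ≠ 0)
    (hN : ∀ c : ℝ, ∃ m₀, ∀ i, m₀ ≤ i → c + 2 * i ≤ N i) {R : Ω → ℝ}
    (hB : IsPreBrownianReal (fun (t : ℝ≥0) ω => XX h N E (R ω - t) ω - XX h N E (R ω) ω) P) :
    P {ω | 0 ≤ R ω} = 0 := by
  have hB' : IsPreBrownianReal (fun (t : ℝ≥0) ω =>
      XX h N E (R ω) ω - XX h N E (R ω - t) ω) P := by
    refine hB.neg.congr fun t => Eventually.of_forall fun ω => ?_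
    simp
  have hc : ∀ ω, Continuous fun t : ℝ≥0 => XX h N E (R ω) ω - XX h N E (R ω - t) ω := by
    intro ω
    have := XX_cont (h := h) (N := N) hE0 ω
    fun_prop
  have hm : ∀ t : ℝ≥0, Measurable fun ω => XX h N E (R ω) ω - XX h N E (R ω - t) ω :=
    fun t => (hB'.aemeasurable t).nullMeasurable.measurable_of_complete
  have hsub : {ω | 0 ≤ R ω} ⊆ ⋃ n : ℕ, {ω | ∀ m,
      wk h (fun m => (N m : ℝ)) (ext fun t : ℝ≥0 => XX h N E (R ω) ω - XX h N E (R ω - t) ω) 0 m
      < wk h (fun m => (N m : ℝ))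
        (ext fun t : ℝ≥0 => XX h N E (R ω) ω - XX h N E (R ω - t) ω) ((n : ℝ≥0) : ℝ) m} := by
    intro ω hω
    obtain ⟨n, hn⟩ := exists_nat_gt (R ω)
    refine Set.mem_iUnion.2 ⟨n, fun m => ?_⟩
    have := dual_walk (h := h) (N := N) (XX_cont hE0 ω)
      (s := fun m => SS h N E (-(kap N m : ℤ)) ω) (by
        rw [kap_zero]; simp [SS, Sd_zero]) (SS_exc hE0 ω) hω (a0 := (n : ℝ≥0))
      (by exact_mod_cast hn) m
    exact this.1.trans_lt this.2.1
  refine measure_mono_null hsub (measure_iUnion_null fun n => ?_)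
  exact coalescence hB' hc hm hpr hN (n : ℝ≥0)

end Random

end Pool.Agent.Lib.MP_d1eed2_pr
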