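import Mathlib
import Pool.Agent.Lib.MP_d1eed2_pr.Filt
import Pool.Agent.Lib.MP_d1eed2_pr.Process

open MeasureTheory ProbabilityTheory Filter Topology
open scoped NNReal ENNReal

namespace Pool.Agent.Lib.MP_d1eed2_pr

/-- The product space. -/
abbrev Om0 : Type := ℤ → (ℕ × ℕ → ℝ)

/-- The product measure. -/
noncomputable def mu0 : Measure Om0 := Measure.infinitePi (fun _ : ℤ => P0)

instance : IsProbabilityMeasure mu0 := by unfold mu0; infer_instance

/-- The completed space. -/
abbrev Om : Type := NullMeasurableSpace Om0 mu0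

/-- The completed measure. -/
noncomputable def PP : Measure Om := mu0.completion

instance : IsProbabilityMeasure PP := ⟨by
  change mu0 Set.univ = 1
  exact measure_univ⟩

instance : PP.IsComplete := by unfold PP; infer_instance

/-- The independent paths. -/
noncomputable def EE0 (k : ℤ) (ω : Om0) : Path := pathMap W0 W0_continuous (ω k)

/-- The independent paths on the completed space. -/
noncomputable def EE (k : ℤ) (ω : Om) : Path := EE0 k ω

lemma measurable_EE0 (k : ℤ) : Measurable (EE0 k) :=
  (measurable_pathMap W0_continuous W0_measurable).comp (measurable_pi_apply k)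

lemma measurable_EE (k : ℤ) : Measurable (EE k) := by
  intro s hs
  exact (measurable_EE0 k hs).nullMeasurableSet

lemma iIndepFun_EE0 : iIndepFun EE0 mu0 :=
  iIndepFun_infinitePi (X := fun (_ : ℤ) => pathMap W0 W0_continuous)
    (fun _ => measurable_pathMap W0_continuous W0_measurable)

lemma iIndepFun_EE : iIndepFun EE PP := by
  rw [iIndepFun_iff_measure_inter_preimage_eq_mul]
  intro S sets H
  exact iIndepFun_EE0.measure_inter_preimage_eq_mul S H

lemma map_EE0 (k : ℤ) : mu0.map (EE0 k) = Wi := by
  have h1 : mu0.map (fun ω => ω k) = P0 := Measure.infinitePi_map_eval (fun _ : ℤ => P0) k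
  have h2 : EE0 k = pathMap W0 W0_continuous ∘ fun ω => ω k := rfl
  rw [h2, ← Measure.map_map (measurable_pathMap W0_continuous W0_measurable)
    (measurable_pi_apply k), h1]
  rfl

lemma map_EE (k : ℤ) : PP.map (EE k) = Wi := by
  ext s hs
  rw [← map_EE0 k, Measure.map_apply (measurable_EE k) hs, Measure.map_apply (measurable_EE0 k) hs]
  rfl

lemma EE_zero (k : ℤ) (ω : Om) : (EE k ω).1 0 = 0 := W0_zero _

/-- the pieces -/
noncomputable def BB (k : ℤ) (t : ℝ≥0) (ω : Om) : ℝ := (EE k ω).1 t

lemma BB_cont (k : ℤ) (ω : Om) : Continuous fun t => BB k t ω := (EE k ω).2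

lemma BB_meas (k : ℤ) (t : ℝ≥0) : Measurable (BB k t) :=
  (measurable_eval_path t).comp (measurable_EE k)

lemma BB_pre (k : ℤ) : IsPreBrownianReal (BB k) PP := by
  refine ⟨fun I => ?_⟩
  have hmI : Measurable (fun e : Path => I.restrict (fun t => e.1 t)) :=
    (Finset.measurable_restrict I).comp measurable_subtype_coe
  refine ⟨(hmI.comp (measurable_EE k)).aemeasurable, ?_⟩
  rw [← (Wi_isPreBrownian.hasLaw I).map_eq, ← map_EE k, Measure.map_map hmI (measurable_EE k)]
  rfl

/-- The filtration of piece `k`. -/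
noncomputable def FF (k : ℤ) : Filtration ℝ≥0 (inferInstance : MeasurableSpace Om) :=
  filt PP (BB_cont k) (BB_meas k)

lemma stopping (h : ℝ) (N : ℕ → ℕ) (k : ℤ) :
    IsStoppingTime (FF k) (fun ω => (TT h N EE k ω : WithTop ℝ≥0)) := by
  intro i
  refine past_le_filt (BB_cont k) (BB_meas k) i _ ?_
  refine ⟨{e | rule h N k e ≤ i}, measurableSet_le (measurable_rule k) measurable_const, ?_⟩
  ext ω
  simp only [Set.mem_preimage, Set.mem_ofPred_eq, WithTop.coe_le_coe]
  exact (isLocal_rule k).le_iff i (EE k ω)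

lemma indep_pieces (h : ℝ) (N : ℕ → ℕ) :
    iIndepFun (fun (k : ℤ) ω =>
      (TT h N EE k ω, fun t : ℝ≥0 => BB k (min t (TT h N EE k ω)) ω)) PP := by
  have hg : ∀ k : ℤ, Measurable fun e : Path =>
      (rule h N k e, fun t : ℝ≥0 => e.1 (min t (rule h N k e))) := by
    intro k
    refine (measurable_rule k).prodMk (measurable_pi_lambda _ fun t => ?_)
    exact measurable_evalNN.comp (f := fun e : Path => (min t (rule h N k e), e))
      (by have := measurable_rule (h := h) (N := N) k; fun_prop)
  exact iIndepFun_EE.comp (fun k e => (rule h N k e, fun t : ℝ≥0 => e.1 (min t (rule h N k e)))) hg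

lemma measurable_TT (h : ℝ) (N : ℕ → ℕ) (k : ℤ) : Measurable (TT h N EE k) :=
  (measurable_rule k).comp (measurable_EE k)

lemma measurable_SS (h : ℝ) (N : ℕ → ℕ) (k : ℤ) : Measurable (SS h N EE k) := by
  have := fun k => measurable_TT h N k
  unfold SS Sd
  fun_prop

lemma measurable_XX (h : ℝ) (N : ℕ → ℕ) (t : ℝ) : Measurable (XX h N EE t) := by
  obtain ⟨n, hn⟩ := exists_nat_ge |t|
  have e : XX h N EE t = fun ω => ∑ k ∈ Finset.Ico (-(n:ℤ) - 1) (n + 1),
      trm (fun i => TT h N EE i ω) (fun i => (EE i ω).1) k t := by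
    funext ω
    exact Xd_eq_sum (fun k => one_le_TT k ω) (fun k => EE_zero k ω) hn
  rw [e]
  refine Finset.measurable_fun_sum _ fun k _ => ?_
  unfold trm
  have h1 := measurable_TT h N k
  have h2 := measurable_SS h N k
  have h3 : Measurable fun ω => (EE k ω).1 (min (t - SS h N EE k ω).toNNReal (TT h N EE k ω)) :=
    measurable_evalNN.comp (f := fun ω => (min (t - SS h N EE k ω).toNNReal (TT h N EE k ω),
      EE k ω)) (by have := measurable_EE k; fun_prop)
  refine h3.sub ?_
  split_ifs
  · exact measurable_evalNN.comp (f := fun ω => (TT h N EE k ω, EE k ω))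
      (by have := measurable_EE k; fun_prop)
  · exact measurable_const

end Pool.Agent.Lib.MP_d1eed2_pr
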